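import Mathlib

/-! The inequality of Chebyshev for decreasing sequences and the resulting partial sums. -/

set_option autoImplicit false

namespace MU

theorem cheb (u : ℕ → ℕ) (s : ℕ) (hu : ∀ j : ℕ, 1 ≤ j → j + 1 ≤ s → u (j + 1) ≤ u j) :
    0 ≤ ∑ j ∈ Finset.Icc 1 s, ((s : ℤ) + 1 - 2 * j) * u j ∧
    (∑ j ∈ Finset.Icc 1 s, ((s : ℤ) + 1 - 2 * j) * u j = 0 → ∀ j ∈ Finset.Icc 1 s, u j = u 1) := by
  induction s with
  | zero => simp
  | succ s ih =>
    obtain ⟨h1, h2⟩ := ih fun j hj hj' => hu j hj (by omega)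
    have key : ∑ j ∈ Finset.Icc 1 (s + 1), (((s + 1 : ℕ) : ℤ) + 1 - 2 * j) * u j =
        ∑ j ∈ Finset.Icc 1 s, ((s : ℤ) + 1 - 2 * j) * u j +
          ∑ j ∈ Finset.Icc 1 s, ((u j : ℤ) - u (s + 1)) := by
      rw [Finset.sum_Icc_succ_top (by omega)]
      have e1 : ∑ j ∈ Finset.Icc 1 s, (((s + 1 : ℕ) : ℤ) + 1 - 2 * j) * u j =
          ∑ j ∈ Finset.Icc 1 s, ((s : ℤ) + 1 - 2 * j) * u j + ∑ j ∈ Finset.Icc 1 s, (u j : ℤ) := by
        rw [← Finset.sum_add_distrib]
        apply Finset.sum_congr rfl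
        intro j _
        push_cast
        ring
      rw [e1, Finset.sum_sub_distrib]
      simp only [Finset.sum_const, Nat.card_Icc, Nat.add_sub_cancel, nsmul_eq_mul]
      push_cast
      ring
    have hmono : ∀ j ∈ Finset.Icc 1 s, u (s + 1) ≤ u j := by
      have h3 : ∀ d : ℕ, ∀ j : ℕ, 1 ≤ j → j + d = s + 1 → u (s + 1) ≤ u j := by
        intro d
        induction d with
        | zero => intro j _ hj; rw [← hj]; exact le_refl _
        | succ d ihd =>
          intro j hj hjd
          exact (ihd (j + 1) (by omega) (by omega)).trans (hu j hj (by omega))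
      intro j hj
      rw [Finset.mem_Icc] at hj
      exact h3 (s + 1 - j) j hj.1 (by omega)
    have h4 : ∀ j ∈ Finset.Icc 1 s, 0 ≤ ((u j : ℤ) - u (s + 1)) := fun j hj => by
      have := hmono j hj
      omega
    have h5 := Finset.sum_nonneg h4
    refine ⟨by rw [key]; omega, fun h0 => ?_⟩
    rw [key] at h0
    have h6 : ∑ j ∈ Finset.Icc 1 s, ((u j : ℤ) - u (s + 1)) = 0 := by omega
    have h7 := (Finset.sum_eq_zero_iff_of_nonneg h4).mp h6
    have h8 : ∀ j ∈ Finset.Icc 1 (s + 1), u j = u (s + 1) := by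
      intro j hj
      rw [Finset.mem_Icc] at hj
      rcases Nat.lt_or_ge s j with hj' | hj'
      · rw [show j = s + 1 by omega]
      · have := h7 j (Finset.mem_Icc.mpr ⟨hj.1, hj'⟩)
        omega
    intro j hj
    rw [h8 j hj, h8 1 (Finset.mem_Icc.mpr ⟨le_refl _, by omega⟩)]

/-- the sub-multiset with prescribed multiplicities -/
theorem sub_multiset (μ : Multiset ℕ) (f : ℕ → ℕ) (hf : ∀ i, 1 ≤ i → f i ≤ μ.count i) :
    ∃ T ≤ μ, T.sum = ∑ i ∈ μ.toFinset, i * f i := by
  classical
  let g : ℕ → ℕ := fun i => if 1 ≤ i then f i else 0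
  have hg : ∀ i, g i ≤ μ.count i := by
    intro i
    by_cases hi : 1 ≤ i
    · simp only [g, if_pos hi]; exact hf i hi
    · simp only [g, if_neg hi]; exact Nat.zero_le _
  refine ⟨∑ i ∈ μ.toFinset, Multiset.replicate (g i) i, ?_, ?_⟩
  · rw [Multiset.le_iff_count]
    intro a
    rw [Multiset.count_sum']
    by_cases ha : a ∈ μ.toFinset
    · rw [Finset.sum_eq_single a]
      · rw [Multiset.count_replicate_self]
        exact hg a
      · intro b _ hb
        rw [Multiset.count_replicate, if_neg hb]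
      · intro h0
        exact absurd ha h0
    · rw [Finset.sum_eq_zero]
      · exact Nat.zero_le _
      · intro b hb
        rw [Multiset.count_replicate, if_neg]
        rintro rfl
        exact ha hb
  · have h1 : (∑ i ∈ μ.toFinset, Multiset.replicate (g i) i).sum =
        ∑ i ∈ μ.toFinset, (Multiset.replicate (g i) i).sum :=
      map_sum (Multiset.sumAddMonoidHom) _ _
    rw [h1]
    apply Finset.sum_congr rfl
    intro i _
    rw [Multiset.sum_replicate, smul_eq_mul, mul_comm]
    by_cases hi : 1 ≤ i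
    · simp only [g, if_pos hi]
    · have : i = 0 := by omega
      subst this
      simp

end MU
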