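import Pool.Agent.Helper85.MU.Defs

/-!
# Pure `ℤ`-motives with given Jordan types of the monodromy at several primes
-/

set_option autoImplicit false

open NumberField

namespace MU

/-- The inertia element `τ` acts by a unipotent matrix with Jordan blocks of the sizes `i ∈ μ`, and
the monodromy filtration is pure: with `N = r τ - 1`, the inverse of a Frobenius element `g` is
annihilated by a monic integral polynomial of degree at most `c`, with roots of absolute value
`p ^ (k (w + i - 1) / 2)`, on the space of Jordan blocks of size `i`, that is, on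
`ker N ^ i / (ker N ^ (i - 1) + N ker N ^ (i + 1))`. Instead of purity we can assume that the sizes
of the blocks are pairwise distinct and that `r` is polarised. -/
def Jor {F K : Type} [Field F] [Field K] {n : ℕ} (w p c : ℕ)
    (𝔓 : Ideal (integralClosure ℤ (AlgebraicClosure F))) (μ : Multiset ℕ) (τ : Gal F)
    (r : Gal F →* Matrix (Fin n) (Fin n) K) : Prop :=
  (∀ k : ℕ, ((r τ - 1) ^ k).rank = (μ.map fun i => i - k).sum) ∧
  ((∀ (k : ℕ) (g : Gal F), 1 ≤ k → CongPow 𝔓 (p ^ k) g → ∀ i : ℕ, 1 ≤ i →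
      ∃ P : Polynomial ℤ, P.Monic ∧ P.natDegree ≤ c ∧
        (∀ z : ℂ, (P.map (Int.castRingHom ℂ)).IsRoot z →
          ‖z‖ ^ 2 = (p : ℝ) ^ (k * (w + i - 1))) ∧
        ∀ v : Fin n → K, ((r τ - 1) ^ i).mulVec v = 0 → ∃ a b : Fin n → K,
          ((r τ - 1) ^ (i - 1)).mulVec a = 0 ∧ ((r τ - 1) ^ (i + 1)).mulVec b = 0 ∧
          (Polynomial.aeval (r g⁻¹) P).mulVec v = a + (r τ - 1).mulVec b) ∨
    (μ.Nodup ∧ ∃ ψ : Matrix (Fin n) (Fin n) K, ψ.det ≠ 0 ∧
      ∀ (k : ℕ) (g : Gal F), CongPow 𝔓 (p ^ k) g →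
        (p : K) ^ (k * w) • ((r g).transpose * ψ * r g) = ψ))

variable {F : Type} [Field F] [NumberField F] {S : Finset ℕ} {n w : ℕ} {h : Fin n → ℕ}

/-- The monodromy of the `l`-adic realization (`l ≠ p`), and of its reduction modulo `l` if `l > c`,
at the prime `𝔓` over `p` has the Jordan type `μ` (with purity, or polarised with pairwise distinct
sizes), and Frobenius elements `g` conjugate the inertia element `τ` to a power. -/
def Mot.TypAt (M : Mot F S n w h) (l : ℕ) [Fact l.Prime] (p c : ℕ)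
    (𝔓 : Ideal (integralClosure ℤ (AlgebraicClosure F))) (μ : Multiset ℕ) : Prop :=
  ∃ τ : Gal F, CongPow 𝔓 1 τ ∧
    (∀ (k : ℕ) (g : Gal F), 1 ≤ k → CongPow 𝔓 (p ^ k) g →
      M.ρ l (g * τ * g⁻¹) = (M.ρ l τ) ^ (p ^ k)) ∧
    Jor w p c 𝔓 μ τ (rat (M.ρ l)) ∧ (c < l → Jor w p c 𝔓 μ τ (res (M.ρ l)))

/-- This holds at every place over `p`, for some types (for instance, at the places with pure good
reduction, where the Jordan blocks have size one). -/
def Mot.Typ (M : Mot F S n w h) (l : ℕ) [Fact l.Prime] (p c : ℕ) : Prop :=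
  ∀ 𝔓 : Ideal (integralClosure ℤ (AlgebraicClosure F)), Over p 𝔓 → ∃ μ, M.TypAt l p c 𝔓 μ

/-- The motives of the theorem: for every prime `l` and every `0 < m < n` there is a prime `p ≠ l`
in `S` such that the Jordan types are as above at all places over `p`, and at one of them `m` is not
the sum of the sizes of some of the Jordan blocks. -/
def Mot.Sep (M : Mot F S n w h) : Prop :=
  ∃ c : ℕ, ∀ (l : ℕ) [Fact l.Prime] (m : ℕ), 0 < m → m < n → ∃ p ∈ S, p ≠ l ∧ M.Typ l p c ∧
    ∃ (𝔓 : Ideal (integralClosure ℤ (AlgebraicClosure F))) (μ : Multiset ℕ), Over p 𝔓 ∧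
      M.TypAt l p c 𝔓 μ ∧ ∀ T ≤ μ, T.sum ≠ m

end MU
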