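import Pool.Agent.Helper3.MV.IRR9
import Pool.Agent.Helper43.MU.Sub

/-! END9: the endomorphisms of the rational representations are scalars. -/

set_option autoImplicit false
set_option maxHeartbeats 1600000

open Matrix Polynomial NumberField

namespace MU

/-- the degree of an irreducible polynomial annihilating `u` divides the dimension -/
theorem end_dvd {K W : Type} [Field K] [AddCommGroup W] [Module K W]
    (u : Module.End K W) (π : K[X]) (hπ : Irreducible π) (h0 : aeval u π = 0) :
    π.natDegree ∣ Module.finrank K W := by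
  classical
  let I : Ideal K[X] := Ideal.span {π}
  have hI : ∀ q ∈ I, (aeval u : K[X] →ₐ[K] Module.End K W).toRingHom q = 0 := by
    intro q hq
    obtain ⟨b, rfl⟩ := Ideal.mem_span_singleton.mp hq
    show aeval u (π * b) = 0
    rw [map_mul, h0, zero_mul]
  let φ : K[X] ⧸ I →+* Module.End K W := Ideal.Quotient.lift I _ hI
  have hmax : I.IsMaximal := PrincipalIdealRing.isMaximal_of_irreducible hπ
  let : Field (K[X] ⧸ I) := Ideal.Quotient.field I
  let : Module (K[X] ⧸ I) W := Module.compHom W φ
  have hsm : ∀ (e : K[X] ⧸ I) (v : W), e • v = φ e v := fun e v => rfl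
  have htower : IsScalarTower K (K[X] ⧸ I) W := by
    refine ⟨fun a e v => ?_⟩
    rw [hsm, hsm, Algebra.smul_def, map_mul]
    have h1 : φ (algebraMap K (K[X] ⧸ I) a) = algebraMap K (Module.End K W) a := by
      have h2 : algebraMap K (K[X] ⧸ I) a = Ideal.Quotient.mk I (C a) := rfl
      rw [h2]
      show (aeval u : K[X] →ₐ[K] Module.End K W).toRingHom (C a) = _
      show aeval u (C a) = _
      rw [aeval_C]
    rw [h1]
    rfl
  have hfree : Module.Free (K[X] ⧸ I) W := Module.Free.of_divisionRing _ _
  have h1 := Module.finrank_mul_finrank K (K[X] ⧸ I) W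
  rw [finrank_quotient_span_eq_natDegree] at h1
  exact ⟨_, h1.symm⟩

/-- the degree divides the dimension of the stable subspaces -/
theorem end_dvd_sub {K V : Type} [Field K] [AddCommGroup V] [Module K V]
    (u : Module.End K V) (π : K[X]) (hπ : Irreducible π) (h0 : aeval u π = 0)
    (W : Submodule K V) (hW : ∀ v ∈ W, u v ∈ W) : π.natDegree ∣ Module.finrank K W := by
  refine end_dvd (u.restrict hW) π hπ ?_
  have h1 : ∀ (q : K[X]) (v : W), ((aeval (u.restrict hW) q v : W) : V) = aeval u q (v : V) := by
    intro q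
    induction q using Polynomial.induction_on' with
    | add p q hp hq =>
      intro v
      rw [map_add, map_add, LinearMap.add_apply, LinearMap.add_apply, Submodule.coe_add, hp, hq]
    | monomial j a =>
      intro v
      rw [aeval_monomial, aeval_monomial, Module.End.mul_apply, Module.End.mul_apply,
        Module.algebraMap_end_apply, Module.algebraMap_end_apply, Submodule.coe_smul]
      congr 1
      induction j with
      | zero => rfl
      | succ j ih =>
        rw [pow_succ', pow_succ', Module.End.mul_apply, Module.End.mul_apply, ← ih]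
        rfl
  apply LinearMap.ext
  intro v
  apply Subtype.ext
  rw [h1 π v, h0]
  rfl

/-- the minimal polynomial of an endomorphism of an irreducible representation -/
theorem end_minpoly {G K : Type} [Group G] [Field K] {n : ℕ} {r : G →* Matrix (Fin n) (Fin n) K}
    (hr : IsIrr r) (hn : 0 < n) (u : Matrix (Fin n) (Fin n) K) (hu : ∀ g, r g * u = u * r g) :
    Irreducible (minpoly K (Matrix.toLinAlgEquiv' u : Module.End K (Fin n → K))) := by
  set ul : Module.End K (Fin n → K) := Matrix.toLinAlgEquiv' u with hul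
  have hint : IsIntegral K ul := Algebra.IsIntegral.isIntegral ul
  have hcomm : ∀ (g : G) (q : K[X]) (v : Fin n → K),
      (aeval ul q) ((r g).mulVec v) = (r g).mulVec (aeval ul q v) := by
    intro g q
    induction q using Polynomial.induction_on' with
    | add p q hp hq =>
      intro v
      rw [map_add, LinearMap.add_apply, LinearMap.add_apply, hp, hq, Matrix.mulVec_add]
    | monomial j a =>
      intro v
      rw [aeval_monomial, Module.End.mul_apply, Module.End.mul_apply,
        Module.algebraMap_end_apply, Module.algebraMap_end_apply, Matrix.mulVec_smul]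
      congr 1
      induction j with
      | zero => rfl
      | succ j ih =>
        rw [pow_succ', Module.End.mul_apply, Module.End.mul_apply, ih]
        change u.mulVec ((r g).mulVec _) = (r g).mulVec (u.mulVec _)
        rw [Matrix.mulVec_mulVec, Matrix.mulVec_mulVec, hu]
  have hker : ∀ q : K[X], LinearMap.ker (aeval ul q) = ⊥ ∨ aeval ul q = 0 := by
    intro q
    rcases irr_stable hr (LinearMap.ker (aeval ul q)) (by
      intro g v hv
      rw [LinearMap.mem_ker] at hv ⊢
      rw [hcomm, hv, Matrix.mulVec_zero]) with h1 | h1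
    · exact Or.inl h1
    · exact Or.inr (LinearMap.ker_eq_top.mp h1)
  have : Nonempty (Fin n) := ⟨⟨0, hn⟩⟩
  have hnt : Nontrivial (Fin n → K) := inferInstance
  have hnt2 : Nontrivial (Module.End K (Fin n → K)) := inferInstance
  rw [(minpoly.monic hint).irreducible_iff_natDegree']
  refine ⟨minpoly.ne_one K ul, ?_⟩
  intro a b ha hb hab hmem
  have h0 : aeval ul a * aeval ul b = 0 := by
    rw [← map_mul, hab, minpoly.aeval]
  have hdeg : a.natDegree + b.natDegree = (minpoly K ul).natDegree := by
    rw [← hab, ha.natDegree_mul hb]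
  rw [Finset.mem_Ioc] at hmem
  have hle : ∀ q : K[X], q.Monic → aeval ul q = 0 → (minpoly K ul).natDegree ≤ q.natDegree :=
    fun q hq hq0 => natDegree_le_of_dvd (minpoly.dvd K ul hq0) hq.ne_zero
  rcases hker a with h1 | h1
  · have h2 : aeval ul b = 0 := by
      apply LinearMap.ext
      intro v
      have h3 := congrArg (fun z => z v) h0
      have h4 : aeval ul b v ∈ LinearMap.ker (aeval ul a) := h3
      rw [h1, Submodule.mem_bot] at h4
      exact h4
    have h5 := hle b hb h2
    omega
  · have h5 := hle a ha h1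
    omega

variable {F : Type} [Field F] [NumberField F] {S : Finset ℕ} {n w : ℕ} {h : Fin n → ℕ}

theorem end9 (hS : ∀ p ∈ S, p.Prime) (M : Mot F S n w h) (hM : M.SepG) (l : ℕ) [Fact l.Prime]
    (u : Matrix (Fin n) (Fin n) ℚ_[l]) (hu : ∀ g, rat (M.ρ l) g * u = u * rat (M.ρ l) g) :
    ∃ a : ℚ_[l], u = a • 1 := by
  classical
  by_cases hn : n = 0
  · subst hn
    exact ⟨0, Matrix.ext fun i => i.elim0⟩
  have hn' : 0 < n := Nat.pos_of_ne_zero hn
  have hirr := (irr9 hS M hM).1 l
  set ul : Module.End ℚ_[l] (Fin n → ℚ_[l]) := Matrix.toLinAlgEquiv' u with hul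
  have hπ := end_minpoly hirr hn' u hu
  rw [← hul] at hπ
  have hint : IsIntegral ℚ_[l] ul := Algebra.IsIntegral.isIntegral ul
  set e : ℕ := (minpoly ℚ_[l] ul).natDegree with he
  have : Nonempty (Fin n) := ⟨⟨0, hn'⟩⟩
  have hnt : Nontrivial (Fin n → ℚ_[l]) := inferInstance
  have hnt2 : Nontrivial (Module.End ℚ_[l] (Fin n → ℚ_[l])) := inferInstance
  have hpos : 0 < e := minpoly.natDegree_pos hint
  have hrank : ∀ A : Matrix (Fin n) (Fin n) ℚ_[l], A * u = u * A → e ∣ A.rank := by
    intro A hA
    refine end_dvd_sub ul _ hπ (minpoly.aeval _ _) (LinearMap.range A.mulVecLin) ?_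
    rintro _ ⟨v, rfl⟩
    refine ⟨u.mulVec v, ?_⟩
    change A.mulVec (u.mulVec v) = u.mulVec (A.mulVec v)
    rw [Matrix.mulVec_mulVec, Matrix.mulVec_mulVec, hA]
  have hen : e ∣ n := by
    have h1 := hrank 1 (by rw [Matrix.one_mul, Matrix.mul_one])
    rwa [Matrix.rank_one, Fintype.card_fin] at h1
  have he1 : e = 1 := by
    by_contra hne
    obtain ⟨c, hc⟩ := hM
    obtain ⟨p, hpS, hpl, 𝔓, μ, h𝔓, hμ, i, hi, hex⟩ := (hc l).2 e hn' (by omega) hen
    obtain ⟨τ, -, -, hJ, -⟩ := hμ
    have h1 : ∀ k : ℕ, e ∣ (μ.map fun i => i - k).sum := by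
      intro k
      rw [← hJ.1 k]
      apply hrank
      have h2 : Commute (rat (M.ρ l) τ - 1) u := by
        have h3 : Commute (rat (M.ρ l) τ) u := hu τ
        exact h3.sub_left (Commute.one_left u)
      exact h2.pow_left k
    apply hex
    have h3 := MT.ms_second μ i hi
    have h4 : (μ.count i : ℤ) = ((μ.map fun j => j - (i - 1)).sum : ℤ) -
        2 * ((μ.map fun j => j - i).sum : ℤ) + ((μ.map fun j => j - (i + 1)).sum : ℤ) := by
      have g1 := MT.ms_split μ (i - 1)
      have g2 := MT.ms_split μ i
      have g3 := MT.ms_split μ (i + 1)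
      omega
    have h5 : (e : ℤ) ∣ (μ.count i : ℤ) := by
      rw [h4]
      exact dvd_add (dvd_sub (Int.natCast_dvd_natCast.mpr (h1 _))
        (Dvd.dvd.mul_left (Int.natCast_dvd_natCast.mpr (h1 _)) 2))
        (Int.natCast_dvd_natCast.mpr (h1 _))
    exact Int.natCast_dvd_natCast.mp h5
  -- degree one
  have hmon := minpoly.monic hint
  have h1 := minpoly.aeval ℚ_[l] ul
  have h2 : minpoly ℚ_[l] ul = X + C ((minpoly ℚ_[l] ul).coeff 0) := by
    exact hmon.eq_X_add_C he1
  rw [h2, map_add, aeval_X, aeval_C] at h1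
  refine ⟨-(minpoly ℚ_[l] ul).coeff 0, ?_⟩
  have h3 : ul = algebraMap ℚ_[l] _ (-(minpoly ℚ_[l] ul).coeff 0) := by
    rw [map_neg]
    exact eq_neg_of_add_eq_zero_left h1
  apply (Matrix.toLinAlgEquiv' (R := ℚ_[l]) (n := Fin n)).injective
  rw [← hul]
  conv_lhs => rw [h3]
  rw [Algebra.algebraMap_eq_smul_one, map_smul, map_one]

end MU
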