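import Pool.Agent.Helper3.MV.PRO9

/-! FIND: finitely many integers `D` for all the relations at the primes over `p`. -/

set_option autoImplicit false
set_option maxHeartbeats 1600000

open Polynomial

namespace MU

/-- the index set: places, sizes of the blocks, positions -/
abbrev Idx (r n : ℕ) : Type := Fin r × Fin (n + 1) × Fin (n + 1)

/-- the condition for `(size, position)` -/
def InT (T : Finset ℕ) (a j : ℕ) : Prop := a ∈ T ∧ 1 ≤ j ∧ j ≤ a

instance (T : Finset ℕ) (a j : ℕ) : Decidable (InT T a j) := by unfold InT; infer_instance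

theorem fin_prod {A : Type} [CommMonoid A] (n : ℕ) (T : Finset ℕ) (hT : ∀ a ∈ T, a ≤ n)
    (g : ℕ → ℕ → A) :
    ∏ a : Fin (n + 1), ∏ j : Fin (n + 1), (if InT T a j then g a j else 1) =
      ∏ a ∈ T, ∏ j ∈ Finset.Icc 1 a, g a j := by
  classical
  rw [Fin.prod_univ_eq_prod_range (fun a => ∏ j : Fin (n + 1), (if InT T a j then g a j else 1))]
  have h1 : ∀ a, ∏ j : Fin (n + 1), (if InT T a j then g a j else 1) =
      ∏ j ∈ Finset.range (n + 1), (if InT T a j then g a j else 1) := fun a =>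
    Fin.prod_univ_eq_prod_range (fun j => if InT T a j then g a j else 1) (n + 1)
  simp only [h1]
  have hsub : T ⊆ Finset.range (n + 1) := fun a ha => Finset.mem_range.mpr (by have := hT a ha; omega)
  rw [← Finset.prod_subset hsub]
  · apply Finset.prod_congr rfl
    intro a ha
    have hsub2 : Finset.Icc 1 a ⊆ Finset.range (n + 1) := fun j hj => by
      rw [Finset.mem_Icc] at hj
      have := hT a ha
      exact Finset.mem_range.mpr (by omega)
    rw [← Finset.prod_subset hsub2]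
    · apply Finset.prod_congr rfl
      intro j hj
      rw [Finset.mem_Icc] at hj
      rw [if_pos ⟨ha, hj.1, hj.2⟩]
    · intro j _ hj
      rw [Finset.mem_Icc] at hj
      rw [if_neg]
      rintro ⟨-, h2, h3⟩
      exact hj ⟨h2, h3⟩
  · intro a _ ha
    apply Finset.prod_eq_one
    intro j _
    rw [if_neg]
    rintro ⟨h2, -⟩
    exact ha h2

theorem fin_sum {A : Type} [AddCommMonoid A] (n : ℕ) (T : Finset ℕ) (hT : ∀ a ∈ T, a ≤ n)
    (g : ℕ → ℕ → A) :
    ∑ a : Fin (n + 1), ∑ j : Fin (n + 1), (if InT T a j then g a j else 0) =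
      ∑ a ∈ T, ∑ j ∈ Finset.Icc 1 a, g a j :=
  fin_prod (A := Multiplicative A) n T hT fun a j => Multiplicative.ofAdd (g a j)

theorem find_D (n w c p : ℕ) (hp : 2 ≤ p) (r : ℕ) (k : Fin r → ℕ) (sB : ℕ) :
    ∃ 𝒟 : Finset ℤ, (∀ D ∈ 𝒟, D ≠ 0) ∧ ∀ (K : Type) [Field K], (∀ D ∈ 𝒟, (D : K) ≠ 0) →
      ∀ s : ℕ, s ≤ sB → ∀ (T : Fin r → Finset ℕ) (u : Fin r → ℕ → ℕ → ℕ)
        (R : Fin r → ℕ → ℕ → Polynomial K) (P : Fin r → ℕ → ℤ[X]),
        (∀ i, ∀ a ∈ T i, a ≤ n) → (∀ i, ∀ a ∈ T i, ∀ j ∈ Finset.Icc 1 a, u i j a ≤ n) →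
        (∀ i a, 1 ≤ a → (P i a).Monic ∧ (P i a).natDegree ≤ c ∧
          ∀ z : ℂ, ((P i a).map (Int.castRingHom ℂ)).IsRoot z →
            ‖z‖ ^ 2 = (p : ℝ) ^ (k i * (w + a - 1))) →
        (∀ i a j, 1 ≤ a → (R i j a).Monic ∧ (R i j a).natDegree = u i j a ∧
          R i j a ∣ ((P i a) ^ n).map (Int.castRingHom K)) →
        ∏ i, ∏ a ∈ T i, ∏ j ∈ Finset.Icc 1 a, ((-1) ^ (u i j a) * (R i j a).coeff 0) =
          (p : K) ^ (∑ i, k i * ∑ a ∈ T i, ∑ j ∈ Finset.Icc 1 a, (a - j) * u i j a + s) →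
        ∑ i, k i * ∑ a ∈ T i, ∑ j ∈ Finset.Icc 1 a, (w + a - 1) * u i j a =
          2 * (∑ i, k i * ∑ a ∈ T i, ∑ j ∈ Finset.Icc 1 a, (a - j) * u i j a + s) := by
  classical
  set B : ℝ := (p : ℝ) ^ ((∑ i, k i) * (w + n)) with hB
  have hp1 : (1 : ℝ) ≤ p := by exact_mod_cast (by omega : 1 ≤ p)
  let PS : Finset ℤ[X] := (poly_finite c B).toFinset
  have hmem : ∀ P : ℤ[X], P ∈ PS ↔ P.Monic ∧ P.natDegree ≤ c ∧
      ∀ z : ℂ, (P.map (Int.castRingHom ℂ)).IsRoot z → ‖z‖ ≤ B := by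
    intro P
    rw [Set.Finite.mem_toFinset]
    rfl
  -- the data
  let Dat : Type := Fin (sB + 1) × (Idx r n → Fin (n + 1)) × (Idx r n → PS)
  let ex : Dat → ℕ := fun x => ∑ ι : Idx r n, k ι.1 * (((ι.2.1 : ℕ) - (ι.2.2 : ℕ)) * (x.2.1 ι : ℕ)) + x.1
  let Good : Dat → Prop := fun x =>
    (∀ (ι : Idx r n) (z : ℂ), (((x.2.2 ι : PS) : ℤ[X]).map (Int.castRingHom ℂ)).IsRoot z →
      ‖z‖ ^ 2 = (p : ℝ) ^ (k ι.1 * (w + (ι.2.1 : ℕ) - 1))) ∧
    ∑ ι : Idx r n, k ι.1 * ((w + (ι.2.1 : ℕ) - 1) * (x.2.1 ι : ℕ)) ≠ 2 * ex x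
  have hD : ∀ x : Dat, ∃ D : ℤ, D ≠ 0 ∧ (Good x → ∀ (K : Type) [Field K] (Q : Idx r n → Polynomial K),
      (∀ ι, (Q ι).Monic ∧ (Q ι).natDegree = (x.2.1 ι : ℕ) ∧
        Q ι ∣ ((((x.2.2 ι : PS) : ℤ[X])) ^ n).map (Int.castRingHom K)) →
      ∏ ι, ((-1) ^ ((x.2.1 ι : ℕ)) * (Q ι).coeff 0) = (p : K) ^ (ex x) → (D : K) = 0) := by
    intro x
    by_cases hx : Good x
    · obtain ⟨hx1, hx2⟩ := hx
      obtain ⟨D, hD1, hD2⟩ := pro9 (Idx r n) (fun ι => (x.2.1 ι : ℕ)) 1 (p ^ (ex x))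
        (fun ι => (p : ℝ) ^ (k ι.1 * (w + (ι.2.1 : ℕ) - 1)))
        (fun ι => (((x.2.2 ι : PS) : ℤ[X])) ^ n)
        (fun ι => ((hmem _).mp (x.2.2 ι).2).1.pow n)
        (fun ι z hz => by
          apply hx1 ι z
          rw [Polynomial.map_pow, IsRoot, eval_pow] at hz
          exact eq_zero_of_pow_eq_zero hz)
        (by
          intro h0
          apply hx2
          have h1 : ∏ ι : Idx r n, ((p : ℝ) ^ (k ι.1 * (w + (ι.2.1 : ℕ) - 1))) ^ ((x.2.1 ι : ℕ)) =
              (p : ℝ) ^ (∑ ι : Idx r n, k ι.1 * ((w + (ι.2.1 : ℕ) - 1) * (x.2.1 ι : ℕ))) := by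
            rw [← Finset.prod_pow_eq_pow_sum]
            apply Finset.prod_congr rfl
            intro ι _
            rw [← pow_mul, mul_assoc]
          have h2 : (((p ^ (ex x) : ℕ) : ℝ)) ^ 2 = (p : ℝ) ^ (2 * ex x) := by
            push_cast
            rw [← pow_mul, mul_comm]
          rw [h1, h2] at h0
          have h3 : p ^ (∑ ι : Idx r n, k ι.1 * ((w + (ι.2.1 : ℕ) - 1) * (x.2.1 ι : ℕ))) =
              p ^ (2 * ex x) := by
            have h4 : (((1 : ℕ) : ℝ)) ^ 2 = 1 := by norm_num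
            rw [h4, one_mul] at h0
            exact_mod_cast h0
          exact Nat.pow_right_injective hp h3)
      refine ⟨D, hD1, fun _ K _ Q hQ hprod => hD2 K Q hQ ?_⟩
      rw [Nat.cast_one, one_mul, hprod, Nat.cast_pow]
    · exact ⟨1, one_ne_zero, fun h => absurd h hx⟩
  choose Df hDf1 hDf2 using hD
  have hF : Fintype Dat := inferInstance
  refine ⟨Finset.univ.image Df, ?_, ?_⟩
  · intro D hD
    obtain ⟨x, -, rfl⟩ := Finset.mem_image.mp hD
    exact hDf1 x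
  intro K _ hK s hs T u R P hT hu hP hR hrel
  have hP' : ∀ i a, (if 1 ≤ a ∧ a ≤ n then P i a else 1) ∈ PS := by
    intro i a
    rw [hmem]
    by_cases ha : 1 ≤ a ∧ a ≤ n
    · rw [if_pos ha]
      obtain ⟨h1, h2, h3⟩ := hP i a ha.1
      refine ⟨h1, h2, fun z hz => ?_⟩
      have h4 := h3 z hz
      have h5 : (p : ℝ) ^ (k i * (w + a - 1)) ≤ B := by
        apply pow_le_pow_right₀ hp1
        apply Nat.mul_le_mul
        · exact Finset.single_le_sum (f := k) (fun _ _ => Nat.zero_le _) (Finset.mem_univ i)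
        · omega
      have h6 : (1 : ℝ) ≤ B := one_le_pow₀ hp1
      by_contra h7
      push Not at h7
      have h8 : B < ‖z‖ ^ 2 := by nlinarith
      linarith
    · rw [if_neg ha]
      refine ⟨monic_one, by simp, fun z hz => ?_⟩
      rw [Polynomial.map_one, IsRoot, eval_one] at hz
      exact absurd hz one_ne_zero
  let mm : Idx r n → Fin (n + 1) := fun ι =>
    if hh : InT (T ι.1) ι.2.1 ι.2.2 then
      ⟨u ι.1 ι.2.2 ι.2.1, by
        have := hu ι.1 ι.2.1 hh.1 ι.2.2 (Finset.mem_Icc.mpr ⟨hh.2.1, hh.2.2⟩)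
        omega⟩
    else 0
  have hmm : ∀ ι : Idx r n, (mm ι : ℕ) =
      if InT (T ι.1) ι.2.1 ι.2.2 then u ι.1 ι.2.2 ι.2.1 else 0 := by
    intro ι
    by_cases hh : InT (T ι.1) ι.2.1 ι.2.2
    · simp only [mm, dif_pos hh, if_pos hh]
    · simp only [mm, dif_neg hh, if_neg hh]; rfl
  let PP : Idx r n → PS := fun ι => ⟨_, hP' ι.1 ι.2.1⟩
  let x : Dat := (⟨s, by omega⟩, mm, PP)
  have hsumI : ∀ g : Fin r → ℕ → ℕ → ℕ,
      ∑ ι : Idx r n, k ι.1 * (g ι.1 ι.2.1 ι.2.2 * (mm ι : ℕ)) =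
      ∑ i, k i * ∑ a ∈ T i, ∑ j ∈ Finset.Icc 1 a, g i a j * u i j a := by
    intro g
    rw [Fintype.sum_prod_type]
    apply Finset.sum_congr rfl
    intro i _
    rw [Fintype.sum_prod_type, ← fin_sum n (T i) (hT i) (fun a j => g i a j * u i j a),
      Finset.mul_sum]
    apply Finset.sum_congr rfl
    intro a _
    rw [Finset.mul_sum]
    apply Finset.sum_congr rfl
    intro j _
    rw [hmm]
    by_cases hh : InT (T i) a j
    · simp only [if_pos hh]
    · simp only [if_neg hh, mul_zero]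
  have hex : ex x = ∑ i, k i * ∑ a ∈ T i, ∑ j ∈ Finset.Icc 1 a, (a - j) * u i j a + s := by
    have := hsumI fun _ a j => a - j
    simp only [ex, x]
    rw [this]
  by_contra hne
  have hGood : Good x := by
    refine ⟨?_, ?_⟩
    · rintro ⟨i, a, j⟩ z hz
      by_cases ha : 1 ≤ (a : ℕ)
      · have hz' : ((P i a).map (Int.castRingHom ℂ)).IsRoot z := by
          have e : (((x.2.2 (i, a, j) : PS) : ℤ[X])) = P i a :=
            if_pos ⟨ha, by have := a.2; omega⟩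
          rw [e] at hz
          exact hz
        exact (hP i a ha).2.2 z hz'
      · have e : (((x.2.2 (i, a, j) : PS) : ℤ[X])) = 1 := if_neg fun h => ha h.1
        rw [e, Polynomial.map_one, IsRoot, eval_one] at hz
        exact absurd hz one_ne_zero
    · rw [hex]
      have := hsumI fun _ a _ => w + a - 1
      simp only [x]
      rw [this]
      exact hne
  let Q : Idx r n → Polynomial K := fun ι =>
    if InT (T ι.1) ι.2.1 ι.2.2 then R ι.1 ι.2.2 ι.2.1 else 1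
  have hQ : ∀ ι, (Q ι).Monic ∧ (Q ι).natDegree = (x.2.1 ι : ℕ) ∧
        Q ι ∣ ((((x.2.2 ι : PS) : ℤ[X])) ^ n).map (Int.castRingHom K) := by
    rintro ⟨i, a, j⟩
    by_cases hh : InT (T i) a j
    · have ha : 1 ≤ (a : ℕ) := hh.2.1.trans hh.2.2
      have e1 : Q (i, a, j) = R i j a := if_pos hh
      have e2 : (x.2.1 (i, a, j) : ℕ) = u i j a := by
        have := hmm (i, a, j)
        rw [if_pos hh] at this
        exact this
      have e3 : (((x.2.2 (i, a, j) : PS) : ℤ[X])) = P i a :=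
        if_pos ⟨ha, by have := a.2; omega⟩
      rw [e1, e2, e3]
      exact hR i a j ha
    · have e1 : Q (i, a, j) = 1 := if_neg hh
      have e2 : (x.2.1 (i, a, j) : ℕ) = 0 := by
        have := hmm (i, a, j)
        rw [if_neg hh] at this
        exact this
      rw [e1, e2]
      exact ⟨monic_one, natDegree_one, one_dvd _⟩
  have hprod : ∏ ι, ((-1) ^ ((x.2.1 ι : ℕ)) * (Q ι).coeff 0) = (p : K) ^ (ex x) := by
    rw [hex, ← hrel, Fintype.prod_prod_type]
    apply Finset.prod_congr rfl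
    intro i _
    rw [Fintype.prod_prod_type, ← fin_prod n (T i) (hT i)
      (fun a j => (-1) ^ (u i j a) * (R i j a).coeff 0)]
    apply Finset.prod_congr rfl
    intro a _
    apply Finset.prod_congr rfl
    intro j _
    have e := hmm (i, a, j)
    by_cases hh : InT (T i) a j
    · rw [if_pos hh] at e
      have e1 : Q (i, a, j) = R i j a := if_pos hh
      have e2 : (x.2.1 (i, a, j) : ℕ) = u i j a := e
      rw [if_pos hh, e1, e2]
    · rw [if_neg hh] at e
      have e1 : Q (i, a, j) = 1 := if_neg hh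
      have e2 : (x.2.1 (i, a, j) : ℕ) = 0 := e
      rw [if_neg hh, e1, e2]
      simp
  exact hK _ (Finset.mem_image_of_mem Df (Finset.mem_univ x)) (hDf2 x hGood K Q hQ hprod)

end MU
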