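import Pool.Agent.Helper3.MV.END9

/-!
# Finiteness for the motives with suitable Jordan types at several primes
-/

set_option autoImplicit false

open NumberField

namespace MU

theorem sep_regular {F : Type} [Field F] [NumberField F] {S : Finset ℕ}
    (hS : ∀ p ∈ S, p.Prime) {n w : ℕ} {h : Fin n → ℕ} (M : Mot F S n w h) (hM : M.Sep) :
    M.Regular :=
  have hG := sep_general M hM
  ⟨fun l _ => ⟨(irr9 hS M hG).1 l, fun u hu => end9 hS M hG l u hu⟩, (irr9 hS M hG).2⟩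

/-- the theorem for the motives with suitable Jordan types at several primes -/
theorem finiteness_sep {F : Type} [Field F] [NumberField F] {S : Finset ℕ}
    (hS : ∀ p ∈ S, p.Prime) (n w : ℕ) (h : Fin n → ℕ) :
    ∃ N : ℕ, ∀ 𝒯 : Set (Mot F S n w h), (∀ M ∈ 𝒯, M.Sep) →
      (∃ T : Finset (Mot F S n w h), (T : Set (Mot F S n w h)) ⊆ 𝒯 ∧ T.card ≤ N ∧
        ∀ M ∈ 𝒯, ∃ M' ∈ T, M.AdelicIso M') ∧
      ((∀ M ∈ 𝒯, ∀ M' ∈ 𝒯, M.AdelicIso M' → M.Isog M') →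
        ∃ T : Finset (Mot F S n w h), (T : Set (Mot F S n w h)) ⊆ 𝒯 ∧ T.card ≤ N ∧
          ∀ M ∈ 𝒯, ∃ M' ∈ T, M.Iso M') := by
  obtain ⟨N, h1, h2⟩ := all_FIN2 F S hS n w h
  refine ⟨N, fun 𝒯 h𝒯 => ?_⟩
  have h3 : ∀ M ∈ 𝒯, M.Regular := fun M hM => sep_regular hS M (h𝒯 M hM)
  exact ⟨h1 𝒯 h3, h2 𝒯 h3⟩

end MU
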