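import Pool.Agent.Helper3.MV.POL
import Pool.Agent.Helper3.MV.CHEB

/-! SEPG: a more general condition. -/

set_option autoImplicit false

open NumberField

namespace MU

variable {F : Type} [Field F] [NumberField F] {S : Finset ℕ} {n w : ℕ} {h : Fin n → ℕ}

/-- More general: for every prime `l`, no `0 < m < n` can be the dimension of a
subrepresentation of the `l`-adic realization, because there are no `[F : ℚ]` sets of `m` Hodge
types with total `[F : ℚ] m w / 2`, or because weight-monodromy holds at all places over some prime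
`p ≠ l` in `S` and at one of them `m` is not the sum of the sizes of some of the Jordan blocks; and
no `e > 1` dividing `n` divides the numbers of Jordan blocks of all sizes at all these places (this
is automatic if all `m` are excluded by Jordan blocks). -/
def Mot.SepG (M : Mot F S n w h) : Prop :=
  ∃ c : ℕ, ∀ (l : ℕ) [Fact l.Prime],
    (∀ m : ℕ, 0 < m → m < n →
      (∀ J : Fin (Module.finrank ℚ F) → Finset (Fin n), (∀ i, (J i).card = m) →
        2 * ∑ i, ∑ j ∈ J i, h j ≠ Module.finrank ℚ F * m * w) ∨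
      ∃ p ∈ S, p ≠ l ∧ M.Typ l p c ∧
        ∃ (𝔓 : Ideal (integralClosure ℤ (AlgebraicClosure F))) (μ : Multiset ℕ), Over p 𝔓 ∧
          M.TypAt l p c 𝔓 μ ∧ ∀ T ≤ μ, T.sum ≠ m) ∧
    ∀ e : ℕ, 0 < n → 1 < e → e ∣ n → ∃ p ∈ S, p ≠ l ∧
      ∃ (𝔓 : Ideal (integralClosure ℤ (AlgebraicClosure F))) (μ : Multiset ℕ), Over p 𝔓 ∧
        M.TypAt l p c 𝔓 μ ∧ ∃ i : ℕ, 1 ≤ i ∧ ¬ e ∣ μ.count i

theorem sep_general (M : Mot F S n w h) (hM : M.Sep) : M.SepG := by
  classical
  obtain ⟨c, hc⟩ := hM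
  refine ⟨c, fun l _ => ⟨fun m hm0 hmn => Or.inr (hc l m hm0 hmn), ?_⟩⟩
  intro e hn he hen
  obtain ⟨d, hd⟩ := hen
  have hd0 : 0 < d := by
    rcases Nat.eq_zero_or_pos d with h1 | h1
    · rw [h1, mul_zero] at hd
      exact absurd hd hn.ne'
    · exact h1
  have hdn : d < n := by
    rw [hd]
    calc d = 1 * d := (one_mul d).symm
      _ < e * d := Nat.mul_lt_mul_of_pos_right (by omega) hd0
  obtain ⟨p, hpS, hpl, -, 𝔓, μ, h𝔓, hμ, hex⟩ := hc l d hd0 hdn
  refine ⟨p, hpS, hpl, 𝔓, μ, h𝔓, hμ, ?_⟩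
  by_contra hcon
  push Not at hcon
  obtain ⟨τ, -, -, hJ, -⟩ := hμ
  obtain ⟨T, hT1, hT2⟩ := sub_multiset μ (fun i => μ.count i / e)
    (fun i _ => Nat.div_le_self _ _)
  apply hex T hT1
  rw [hT2]
  have hpos : 0 < e := by omega
  have h6 : e * ∑ i ∈ μ.toFinset, i * (μ.count i / e) = n := by
    rw [Finset.mul_sum]
    have h7 : ∑ i ∈ μ.toFinset, e * (i * (μ.count i / e)) = ∑ i ∈ μ.toFinset, μ.count i * i := by
      apply Finset.sum_congr rfl
      intro i _
      by_cases hi : 1 ≤ i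
      · obtain ⟨b, hb⟩ := hcon i hi
        rw [hb, Nat.mul_div_cancel_left _ hpos]
        ring
      · have : i = 0 := by omega
        subst this
        simp
    rw [h7]
    have h8 := hJ.1 0
    rw [pow_zero, Matrix.rank_one, Fintype.card_fin] at h8
    have h9 : (μ.map fun i => i - 0).sum = μ.sum := by
      congr 1
      simp
    rw [h9] at h8
    rw [h8, Finset.sum_multiset_count]
    simp
  have h7 : e * ∑ i ∈ μ.toFinset, i * (μ.count i / e) = e * d := by rw [h6, ← hd]
  exact Nat.eq_of_mul_eq_mul_left hpos h7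

end MU
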