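import Pool.Agent.Helper3.MV.KEY
import Pool.Agent.Helper3.MV.SEPG
import Pool.Agent.Helper85.MU.Final

/-! IRR9: irreducibility of the rational and of almost all residual representations. -/

set_option autoImplicit false
set_option maxHeartbeats 1600000

open Matrix Polynomial NumberField

namespace MU

variable {F : Type} [Field F] [NumberField F] {S : Finset ℕ} {n w : ℕ} {h : Fin n → ℕ}

theorem irr9 (hS : ∀ p ∈ S, p.Prime) (M : Mot F S n w h) (hM : M.SepG) :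
    (∀ (l : ℕ) [Fact l.Prime], IsIrr (rat (M.ρ l))) ∧
      ∃ c : ℕ, ∀ (l : ℕ) [Fact l.Prime], c < l → IsIrr (res (M.ρ l)) := by
  classical
  obtain ⟨c₀, hc⟩ := hM
  set c : ℕ := max c₀ 2 with hcdef
  obtain ⟨r, x, k, 𝔔, hTri, hCov⟩ := all_TRI2 F
  obtain ⟨hB1, c₂, hB2⟩ := all_BAL F r x k 𝔔 hTri S hS n w h M
  have hkey : ∀ p : ℕ, ∃ 𝒟 : Finset ℤ, (∀ D ∈ 𝒟, D ≠ 0) ∧ (p ∈ S →
      ∀ (l : ℕ) [Fact l.Prime],
      (∀ 𝔓 : Ideal (Zb F), Over p 𝔓 → ∃ μ, M.TypP l p c 𝔓 μ) → ∀ (K : Type) [Field K]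
      (f : ℤ_[l] →+* K), (p : K) ≠ 0 → (∀ D ∈ 𝒟, (D : K) ≠ 0) →
      (∀ (𝔓 : Ideal (Zb F)) (μ : Multiset ℕ), M.TypP l p c 𝔓 μ → ∃ τ : Gal F,
        (∀ (k : ℕ) (g : Gal F), 1 ≤ k → CongPow 𝔓 (p ^ k) g →
          M.ρ l (g * τ * g⁻¹) = (M.ρ l τ) ^ (p ^ k)) ∧
        JorP w p c 𝔓 μ τ (balRep f (M.ρ l))) →
      ∀ (m : ℕ) (B : Matrix (Fin n) (Fin m) K) (A : Gal F → Matrix (Fin m) (Fin m) K),
        IsSub (balRep f (M.ρ l)) B A → ∀ s : ℕ, 2 * s = Module.finrank ℚ F * m * w →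
        (∏ i, (A (x p i)).det) * (p : K) ^ s = 1 →
        ∀ (i₀ : Fin (r p)) (μ : Multiset ℕ), M.TypP l p c (𝔔 p i₀) μ → ∃ T ≤ μ, T.sum = m) := by
    intro p
    by_cases hp : p ∈ S
    · obtain ⟨𝒟, h1, h2⟩ := key9 M p c (hS p hp) (r p) (x p) (k p) (𝔔 p) (hTri.1 p (hS p hp))
      exact ⟨𝒟, h1, fun _ => h2⟩
    · exact ⟨∅, by simp, fun h1 => absurd h1 hp⟩
  choose 𝒟 hD1 hD2 using hkey
  -- transfer of the excluded place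
  have hplace : ∀ (l : ℕ) [Fact l.Prime] (p : ℕ) (𝔓 : Ideal (Zb F)) (μ : Multiset ℕ), p ∈ S →
      Over p 𝔓 → M.TypP l p c 𝔓 μ → ∃ i : Fin (r p), M.TypP l p c (𝔔 p i) μ := by
    intro l _ p 𝔓 μ hp h𝔓 hμ
    obtain ⟨i, g, hg⟩ := hCov p (hS p hp) 𝔓 h𝔓
    exact ⟨i, typ_conj M l p c g hg μ hμ⟩
  refine ⟨?_, c₂ + c + ∑ p ∈ S, (p + ∑ D ∈ 𝒟 p, D.natAbs), ?_⟩
  · intro l hl m B A hs
    by_contra hcon
    push Not at hcon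
    have hmn := isSub_le hs
    obtain ⟨J, hJ1, hJ2, hJ3⟩ := (hB1 l m B A hs).1
    rcases (hc l).1 m (by omega) (by omega) with hex | ⟨p, hpS, hpl, hTyp, 𝔓, μ, h𝔓, hμ, hex⟩
    · exact hex J hJ1 hJ2
    have hTyp' : ∀ 𝔓 : Ideal (Zb F), Over p 𝔓 → ∃ μ, M.TypP l p c 𝔓 μ := fun 𝔓 h𝔓 => by
      obtain ⟨μ, hμ⟩ := hTyp 𝔓 h𝔓
      exact ⟨μ, typ_pol M l p c₀ (hS p hpS) hpl 𝔓 μ hμ⟩
    obtain ⟨i₀, hi₀⟩ := hplace l p 𝔓 μ hpS h𝔓 (typ_pol M l p c₀ (hS p hpS) hpl 𝔓 μ hμ)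
    have hp0 : (p : ℚ_[l]) ≠ 0 := by exact_mod_cast (hS p hpS).ne_zero
    obtain ⟨T, hT1, hT2⟩ := hD2 p hpS l hTyp' ℚ_[l] (algebraMap ℤ_[l] ℚ_[l]) hp0
      (fun D hD => by exact_mod_cast hD1 p D hD)
      (fun 𝔓 μ hμ => by
        obtain ⟨τ, -, h2, h3, -⟩ := hμ
        exact ⟨τ, h2, h3⟩) m B A hs _ hJ2 (hJ3 p (hS p hpS) hpl) i₀ μ hi₀
    exact hex T hT1 hT2
  · intro l hl hcl m B A hs
    by_contra hcon
    push Not at hcon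
    have hmn := isSub_le hs
    obtain ⟨J, hJ1, hJ2, hJ3⟩ := hB2 l (by omega) m B A hs
    rcases (hc l).1 m (by omega) (by omega) with hex | ⟨p, hpS, hpl, hTyp, 𝔓, μ, h𝔓, hμ, hex⟩
    · exact hex J hJ1 hJ2
    have hTyp' : ∀ 𝔓 : Ideal (Zb F), Over p 𝔓 → ∃ μ, M.TypP l p c 𝔓 μ := fun 𝔓 h𝔓 => by
      obtain ⟨μ, hμ⟩ := hTyp 𝔓 h𝔓
      exact ⟨μ, typ_pol M l p c₀ (hS p hpS) hpl 𝔓 μ hμ⟩
    obtain ⟨i₀, hi₀⟩ := hplace l p 𝔓 μ hpS h𝔓 (typ_pol M l p c₀ (hS p hpS) hpl 𝔓 μ hμ)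
    have hle : p + ∑ D ∈ 𝒟 p, D.natAbs ≤ ∑ p ∈ S, (p + ∑ D ∈ 𝒟 p, D.natAbs) :=
      Finset.single_le_sum (f := fun p => p + ∑ D ∈ 𝒟 p, D.natAbs)
        (fun _ _ => Nat.zero_le _) hpS
    have hp0 : (p : ZMod l) ≠ 0 := by
      rw [Ne, ZMod.natCast_eq_zero_iff]
      intro h0
      have := Nat.le_of_dvd (hS p hpS).pos h0
      omega
    obtain ⟨T, hT1, hT2⟩ := hD2 p hpS l hTyp' (ZMod l) (PadicInt.toZMod (p := l)) hp0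
      (fun D hD => by
        have h1 : D.natAbs ≤ ∑ D ∈ 𝒟 p, D.natAbs :=
          Finset.single_le_sum (f := fun D : ℤ => D.natAbs) (fun _ _ => Nat.zero_le _) hD
        rw [Ne, ZMod.intCast_zmod_eq_zero_iff_dvd]
        intro h0
        have h2 := Int.natAbs_dvd_natAbs.mpr h0
        rw [Int.natAbs_natCast] at h2
        have h3 := Nat.le_of_dvd (Int.natAbs_pos.mpr (hD1 p D hD)) h2
        omega)
      (fun 𝔓 μ hμ => by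
        obtain ⟨τ, -, h2, -, h3⟩ := hμ
        exact ⟨τ, h2, h3 (by omega)⟩) m B A hs _ hJ2 (hJ3 p (hS p hpS) hpl) i₀ μ hi₀
    exact hex T hT1 hT2

end MU
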