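import Pool.Agent.Helper21.MT8.LIN8

/-!
# LIN9: helper21's LIN8 over an arbitrary field (the proof is a copy of his st_LIN8)
-/

set_option autoImplicit false

open NumberField MU

namespace MT

open Module

/-- LIN8 over any field in which `Q` is invertible. -/
theorem lin9 (K : Type) [Field K] (n m Q : ℕ) (hq : (Q : K) ≠ 0) (μ : Multiset ℕ)
    (t X : Matrix (Fin n) (Fin n) K) (P : ℕ → Polynomial ℤ) (B : Matrix (Fin n) (Fin m) K)
    (C : Matrix (Fin m) (Fin n) K) (s a : Matrix (Fin m) (Fin m) K)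
    (hX : X.det ≠ 0) (hXt : X * t = t ^ Q * X)
    (hr : ∀ k : ℕ, ((t - 1) ^ k).rank = (μ.map fun i => i - k).sum)
    (hP : ∀ i : ℕ, 1 ≤ i → (P i).Monic ∧ ∀ v : Fin n → K, ((t - 1) ^ i).mulVec v = 0 →
      ∃ x y : Fin n → K, ((t - 1) ^ (i - 1)).mulVec x = 0 ∧ ((t - 1) ^ (i + 1)).mulVec y = 0 ∧
        (Polynomial.aeval X⁻¹ (P i)).mulVec v = x + (t - 1).mulVec y)
    (hCB : C * B = 1) (hs : t * B = B * s) (ha : X * B = B * a) :
    ∃ (u : ℕ → ℕ → ℕ) (R : ℕ → ℕ → Polynomial K),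
      (∀ i j : ℕ, 1 ≤ j → j + 1 ≤ i → u (j + 1) i ≤ u j i) ∧ (∀ i : ℕ, 1 ≤ i → u 1 i ≤ μ.count i) ∧
      ∑ i ∈ μ.toFinset, ∑ j ∈ Finset.Icc 1 i, u j i = m ∧
      (∀ i j : ℕ, 1 ≤ i → (R j i).Monic ∧ (R j i).natDegree = u j i ∧
        R j i ∣ ((P i) ^ n).map (Int.castRingHom K)) ∧
      (∏ i ∈ μ.toFinset, ∏ j ∈ Finset.Icc 1 i, ((-1) ^ (u j i) * (R j i).coeff 0)) * a.det =
        (Q : K) ^ (∑ i ∈ μ.toFinset, ∑ j ∈ Finset.Icc 1 i, (i - j) * u j i) := by
  let tl : Module.End K (Fin n → K) := Matrix.toLinAlgEquiv' t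
  let Xl : Module.End K (Fin n → K) := Matrix.toLinAlgEquiv' X
  let Yl : Module.End K (Fin n → K) := Matrix.toLinAlgEquiv' X⁻¹
  have hu : IsUnit X.det := isUnit_iff_ne_zero.mpr hX
  have hYX : Yl * Xl = 1 := by
    have h1 : Yl * Xl = Matrix.toLinAlgEquiv' (X⁻¹ * X) := (map_mul _ _ _).symm
    rw [h1, Matrix.nonsing_inv_mul _ hu, map_one]
  have hXY : Xl * Yl = 1 := by
    have h1 : Xl * Yl = Matrix.toLinAlgEquiv' (X * X⁻¹) := (map_mul _ _ _).symm
    rw [h1, Matrix.mul_nonsing_inv _ hu, map_one]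
  have htl : ∀ v, tl v = t.mulVec v := fun v => rfl
  have hXl : ∀ v, Xl v = X.mulVec v := fun v => rfl
  have hXt' : Xl * tl = tl ^ Q * Xl := by
    have h1 : Xl * tl = Matrix.toLinAlgEquiv' (X * t) := (map_mul _ _ _).symm
    have h2 : tl ^ Q * Xl = Matrix.toLinAlgEquiv' (t ^ Q * X) := by
      rw [map_mul, map_pow]
    rw [h1, h2, hXt]
  have hpow : ∀ k : ℕ, (tl - 1) ^ k = Matrix.toLinAlgEquiv' ((t - 1) ^ k) := by
    intro k
    rw [map_pow, map_sub, map_one]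
  have hr' : ∀ k : ℕ, finrank K (LinearMap.range ((tl - 1) ^ k)) =
      (μ.map fun i => i - k).sum := by
    intro k
    rw [← hr k, hpow k]
    rfl
  have hkr : ∀ (k : ℕ) (v : Fin n → K), v ∈ kr (tl - 1) k ↔ ((t - 1) ^ k).mulVec v = 0 := by
    intro k v
    rw [mem_kr, hpow k]
    rfl
  let Bl : (Fin m → K) →ₗ[K] (Fin n → K) := B.mulVecLin
  let U : Submodule K (Fin n → K) := LinearMap.range Bl
  have hBl : ∀ v, Bl v = B.mulVec v := fun v => rfl
  have hBinj : Function.Injective Bl := by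
    intro u v huv
    have h1 : C.mulVec (B.mulVec u) = C.mulVec (B.mulVec v) := by
      rw [← hBl, ← hBl, huv]
    rw [Matrix.mulVec_mulVec, Matrix.mulVec_mulVec, hCB, Matrix.one_mulVec, Matrix.one_mulVec] at h1
    exact h1
  have hUt : ∀ u ∈ U, tl u ∈ U := by
    rintro _ ⟨v, rfl⟩
    refine ⟨s.mulVec v, ?_⟩
    rw [hBl, hBl, htl, Matrix.mulVec_mulVec, Matrix.mulVec_mulVec, hs]
  have hUX : U ≤ U.comap Xl := by
    rintro _ ⟨v, rfl⟩
    refine ⟨a.mulVec v, ?_⟩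
    rw [hBl, hBl, hXl, Matrix.mulVec_mulVec, Matrix.mulVec_mulVec, ha]
  have hdim : finrank K U = m := by
    have h1 : finrank K U = finrank K (Fin m → K) := LinearMap.finrank_range_of_inj hBinj
    rw [h1, Module.finrank_fin_fun]
  have hdet : dR Xl U = a.det := by
    rw [dR_eq Xl U hUX]
    let e : (Fin m → K) ≃ₗ[K] U := LinearEquiv.ofInjective Bl hBinj
    have h1 : Xl.restrict hUX = ((e : (Fin m → K) →ₗ[K] U) ∘ₗ (Matrix.toLin' a) ∘ₗ
        (e.symm : U →ₗ[K] (Fin m → K))) := by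
      apply LinearMap.ext
      intro u
      obtain ⟨v, rfl⟩ := e.surjective u
      apply Subtype.ext
      simp only [LinearMap.coe_comp, LinearEquiv.coe_coe, Function.comp_apply,
        LinearEquiv.symm_apply_apply, Matrix.toLin'_apply]
      change X.mulVec (B.mulVec v) = B.mulVec (a.mulVec v)
      rw [Matrix.mulVec_mulVec, Matrix.mulVec_mulVec, ha]
    rw [h1, LinearMap.det_conj, LinearMap.det_toLin']
  have hP' : ∀ i : ℕ, 1 ≤ i → ∀ v ∈ kr (tl - 1) i,
      Polynomial.aeval Yl ((P i).map (Int.castRingHom K)) v ∈ rr (tl - 1) i := by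
    intro i hi v hv
    rw [hkr] at hv
    obtain ⟨x, y, hx, hy, hxy⟩ := (hP i hi).2 v hv
    have h1 : Polynomial.aeval Yl ((P i).map (Int.castRingHom K)) =
        Matrix.toLinAlgEquiv' (Polynomial.aeval X⁻¹ (P i)) := by
      have h2 : Polynomial.aeval Yl ((P i).map (Int.castRingHom K)) =
          Polynomial.aeval Yl (P i) := by
        exact Polynomial.aeval_map_algebraMap K Yl (P i)
      rw [h2]
      exact Polynomial.aeval_algHom_apply
        ((Matrix.toLinAlgEquiv' (R := K) (n := Fin n)).toAlgHom.restrictScalars ℤ) X⁻¹ (P i)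
    rw [h1]
    change (Polynomial.aeval X⁻¹ (P i)).mulVec v ∈ _
    rw [hxy]
    unfold rr
    apply Submodule.add_mem
    · apply Submodule.mem_sup_left
      rw [hkr]
      exact hx
    · apply Submodule.mem_sup_right
      refine ⟨y, ?_, ?_⟩
      · rw [SetLike.mem_coe, hkr]
        exact hy
      · have h2 := hpow 1
        rw [pow_one, pow_one] at h2
        rw [h2]
        rfl
  obtain ⟨u, R, h1, h2, h3, h4, h5⟩ := lin8_core tl Xl Yl hYX hXY μ hr' Q hq hXt'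
    (fun i => (P i).map (Int.castRingHom K)) hP' n (by rw [Module.finrank_fin_fun]) U hUt hUX
  rw [hdim] at h3
  rw [hdet] at h5
  refine ⟨u, R, h1, h2, h3, ?_, h5⟩
  intro i j hi
  rw [Polynomial.map_pow]
  exact h4 i j hi

end MT
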