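import Pool.Agent.Helper3.MV.TYP
import Pool.Agent.Helper3.MV.CHEB
import Pool.Agent.Helper3.MV.FIND
import Pool.Agent.Helper3.MV.LIN9

/-! KEY: the dimension of a stable subspace is a partial sum of the sizes of the Jordan blocks. -/

set_option autoImplicit false
set_option maxHeartbeats 1600000

open Matrix Polynomial NumberField

namespace MU

/-- the arithmetic of the exponents -/
theorem key_arith (r m w s : ℕ) (k : Fin r → ℕ) (hk : ∀ i, 1 ≤ k i) (T : Fin r → Finset ℕ)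
    (u : Fin r → ℕ → ℕ → ℕ)
    (hu : ∀ i a j, 1 ≤ j → j + 1 ≤ a → u i (j + 1) a ≤ u i j a)
    (hm : ∀ i, ∑ a ∈ T i, ∑ j ∈ Finset.Icc 1 a, u i j a = m)
    (hs : 2 * s = (∑ i, k i) * m * w)
    (hE : ∑ i, k i * ∑ a ∈ T i, ∑ j ∈ Finset.Icc 1 a, (w + a - 1) * u i j a =
      2 * (∑ i, k i * ∑ a ∈ T i, ∑ j ∈ Finset.Icc 1 a, (a - j) * u i j a + s)) (i : Fin r) :
    ∑ a ∈ T i, a * u i 1 a = m := by
  have hc : ∀ i, ∀ a ∈ T i, 0 ≤ ∑ j ∈ Finset.Icc 1 a, ((a : ℤ) + 1 - 2 * j) * u i j a := by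
    intro i a _
    exact (cheb (fun j => u i j a) a (fun j hj hj' => hu i a j hj hj')).1
  have hc2 : ∀ i, 0 ≤ ∑ a ∈ T i, ∑ j ∈ Finset.Icc 1 a, ((a : ℤ) + 1 - 2 * j) * u i j a :=
    fun i => Finset.sum_nonneg (hc i)
  have e1 : ∀ i, ((∑ a ∈ T i, ∑ j ∈ Finset.Icc 1 a, (w + a - 1) * u i j a : ℕ) : ℤ) +
      ∑ a ∈ T i, ∑ j ∈ Finset.Icc 1 a, ((a : ℤ) + 1 - 2 * j) * u i j a =
      w * m + 2 * ((∑ a ∈ T i, ∑ j ∈ Finset.Icc 1 a, (a - j) * u i j a : ℕ) : ℤ) := by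
    intro i
    rw [← hm i]
    push_cast
    rw [← Finset.sum_add_distrib, Finset.mul_sum, Finset.mul_sum, ← Finset.sum_add_distrib]
    apply Finset.sum_congr rfl
    intro a _
    rw [← Finset.sum_add_distrib, Finset.mul_sum, Finset.mul_sum, ← Finset.sum_add_distrib]
    apply Finset.sum_congr rfl
    intro j hj
    rw [Finset.mem_Icc] at hj
    rw [Nat.cast_sub (by omega : 1 ≤ w + a), Nat.cast_sub hj.2]
    push_cast
    ring
  have e2 : ∑ i, (k i : ℤ) * ∑ a ∈ T i, ∑ j ∈ Finset.Icc 1 a, ((a : ℤ) + 1 - 2 * j) * u i j a =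
      0 := by
    have e3 : ∀ i, (k i : ℤ) * ∑ a ∈ T i, ∑ j ∈ Finset.Icc 1 a, ((a : ℤ) + 1 - 2 * j) * u i j a =
        k i * (w * m) + 2 * (k i * ((∑ a ∈ T i, ∑ j ∈ Finset.Icc 1 a, (a - j) * u i j a : ℕ) : ℤ)) -
        k i * ((∑ a ∈ T i, ∑ j ∈ Finset.Icc 1 a, (w + a - 1) * u i j a : ℕ) : ℤ) := by
      intro i
      have := e1 i
      linear_combination (k i : ℤ) * this
    rw [Finset.sum_congr rfl fun i _ => e3 i, Finset.sum_sub_distrib, Finset.sum_add_distrib,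
      ← Finset.sum_mul, ← Finset.mul_sum]
    have hE' : ∑ i, (k i : ℤ) * ((∑ a ∈ T i, ∑ j ∈ Finset.Icc 1 a, (w + a - 1) * u i j a : ℕ) : ℤ) =
        2 * (∑ i, (k i : ℤ) * ((∑ a ∈ T i, ∑ j ∈ Finset.Icc 1 a, (a - j) * u i j a : ℕ) : ℤ) + s) := by
      exact_mod_cast hE
    have hs' : 2 * (s : ℤ) = (∑ i, (k i : ℤ)) * m * w := by exact_mod_cast hs
    rw [hE']
    linear_combination -hs'
  have h1 : (k i : ℤ) * ∑ a ∈ T i, ∑ j ∈ Finset.Icc 1 a, ((a : ℤ) + 1 - 2 * j) * u i j a = 0 :=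
    (Finset.sum_eq_zero_iff_of_nonneg
      (fun i _ => mul_nonneg (Nat.cast_nonneg _) (hc2 i))).mp e2 i (Finset.mem_univ i)
  have h2 : ∑ a ∈ T i, ∑ j ∈ Finset.Icc 1 a, ((a : ℤ) + 1 - 2 * j) * u i j a = 0 := by
    rcases mul_eq_zero.mp h1 with h3 | h3
    · have := hk i
      omega
    · exact h3
  have h3 := (Finset.sum_eq_zero_iff_of_nonneg (hc i)).mp h2
  rw [← hm i]
  apply Finset.sum_congr rfl
  intro a ha
  have h4 := (cheb (fun j => u i j a) a (fun j hj hj' => hu i a j hj hj')).2 (h3 a ha)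
  rw [Finset.sum_congr rfl h4]
  simp

lemma isSub_le {G K : Type} [Group G] [Field K] {n m : ℕ} {r : G →* Matrix (Fin n) (Fin n) K}
    {B : Matrix (Fin n) (Fin m) K} {A : G → Matrix (Fin m) (Fin m) K} (hs : IsSub r B A) :
    m ≤ n := by
  obtain ⟨⟨C, hC⟩, -⟩ := hs
  have h2 : (C * B).rank = m := by rw [hC, Matrix.rank_one, Fintype.card_fin]
  have h3 := Matrix.rank_mul_le_right C B
  have h4 := Matrix.rank_le_height B
  omega

variable {F : Type} [Field F] [NumberField F] {S : Finset ℕ} {n w : ℕ} {h : Fin n → ℕ}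

theorem key9 (M : Mot F S n w h) (p c : ℕ) (hp : p.Prime) (r : ℕ) (x : Fin r → Gal F)
    (k : Fin r → ℕ) (𝔔 : Fin r → Ideal (Zb F)) (hTr : TrData F p r x k 𝔔) :
    ∃ 𝒟 : Finset ℤ, (∀ D ∈ 𝒟, D ≠ 0) ∧ ∀ (l : ℕ) [Fact l.Prime],
      (∀ 𝔓 : Ideal (Zb F), Over p 𝔓 → ∃ μ, M.TypP l p c 𝔓 μ) →
      ∀ (K : Type) [Field K] (f : ℤ_[l] →+* K), (p : K) ≠ 0 → (∀ D ∈ 𝒟, (D : K) ≠ 0) →
      (∀ (𝔓 : Ideal (Zb F)) (μ : Multiset ℕ), M.TypP l p c 𝔓 μ → ∃ τ : Gal F,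
        (∀ (k : ℕ) (g : Gal F), 1 ≤ k → CongPow 𝔓 (p ^ k) g →
          M.ρ l (g * τ * g⁻¹) = (M.ρ l τ) ^ (p ^ k)) ∧
        JorP w p c 𝔓 μ τ (balRep f (M.ρ l))) →
      ∀ (m : ℕ) (B : Matrix (Fin n) (Fin m) K) (A : Gal F → Matrix (Fin m) (Fin m) K),
        IsSub (balRep f (M.ρ l)) B A → ∀ s : ℕ, 2 * s = Module.finrank ℚ F * m * w →
        (∏ i, (A (x i)).det) * (p : K) ^ s = 1 →
        ∀ (i₀ : Fin r) (μ : Multiset ℕ), M.TypP l p c (𝔔 i₀) μ → ∃ T ≤ μ, T.sum = m := by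
  classical
  obtain ⟨hTr1, hTr2⟩ := hTr
  obtain ⟨𝒟, hD1, hD2⟩ := find_D n w c p hp.two_le r k (Module.finrank ℚ F * n * w)
  refine ⟨𝒟, hD1, ?_⟩
  intro l _ hTyp K _ f hpK hDK hJ m B A hs s hsm hdet i₀ μ₀ hμ₀
  have hmn : m ≤ n := isSub_le hs
  set ρ := balRep f (M.ρ l) with hρ
  -- the types at all places
  have h1 : ∀ i, ∃ μ, M.TypP l p c (𝔔 i) μ ∧ (i = i₀ → μ = μ₀) := by
    intro i
    by_cases hi : i = i₀
    · subst hi
      exact ⟨μ₀, hμ₀, fun _ => rfl⟩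
    · obtain ⟨μ, hμ⟩ := hTyp (𝔔 i) (hTr1 i).1
      exact ⟨μ, hμ, fun h => absurd h hi⟩
  choose μ hμ1 hμ2 using h1
  choose τ hτ1 hτ2 using fun i => hJ (𝔔 i) (μ i) (hμ1 i)
  -- the polynomials
  have h2 : ∀ i a, ∃ P : ℤ[X], 1 ≤ a → P.Monic ∧ P.natDegree ≤ c ∧
      (∀ z : ℂ, (P.map (Int.castRingHom ℂ)).IsRoot z →
        ‖z‖ ^ 2 = (p : ℝ) ^ (k i * (w + a - 1))) ∧
      ∀ v : Fin n → K, ((ρ (τ i) - 1) ^ a).mulVec v = 0 → ∃ y z : Fin n → K,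
        ((ρ (τ i) - 1) ^ (a - 1)).mulVec y = 0 ∧ ((ρ (τ i) - 1) ^ (a + 1)).mulVec z = 0 ∧
        (Polynomial.aeval (ρ (x i)⁻¹) P).mulVec v = y + (ρ (τ i) - 1).mulVec z := by
    intro i a
    by_cases ha : 1 ≤ a
    · obtain ⟨P, hP⟩ := (hτ2 i).2 (k i) (x i) (hTr1 i).2.1 (hTr1 i).2.2 a ha
      exact ⟨P, fun _ => hP⟩
    · exact ⟨1, fun h => absurd h ha⟩
  choose P hP using h2
  -- linear algebra at the places
  obtain ⟨⟨C, hC⟩, hA⟩ := id hs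
  have hinv : ∀ g, ρ g * ρ g⁻¹ = 1 := fun g => (typ_inv ρ g).1
  have h3 : ∀ i, ∃ (u : ℕ → ℕ → ℕ) (R : ℕ → ℕ → Polynomial K),
      (∀ a j : ℕ, 1 ≤ j → j + 1 ≤ a → u (j + 1) a ≤ u j a) ∧
      (∀ a : ℕ, 1 ≤ a → u 1 a ≤ (μ i).count a) ∧
      ∑ a ∈ (μ i).toFinset, ∑ j ∈ Finset.Icc 1 a, u j a = m ∧
      (∀ a j : ℕ, 1 ≤ a → (R j a).Monic ∧ (R j a).natDegree = u j a ∧
        R j a ∣ ((P i a) ^ n).map (Int.castRingHom K)) ∧
      (∏ a ∈ (μ i).toFinset, ∏ j ∈ Finset.Icc 1 a, ((-1) ^ (u j a) * (R j a).coeff 0)) *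
        (A (x i)).det =
        ((p ^ k i : ℕ) : K) ^ (∑ a ∈ (μ i).toFinset, ∑ j ∈ Finset.Icc 1 a, (a - j) * u j a) := by
    intro i
    have hX : (ρ (x i)).det ≠ 0 := by
      intro h0
      have := congrArg Matrix.det (hinv (x i))
      rw [Matrix.det_mul, h0, zero_mul, Matrix.det_one] at this
      exact zero_ne_one this
    have hXinv : (ρ (x i))⁻¹ = ρ (x i)⁻¹ := Matrix.inv_eq_right_inv (hinv (x i))
    refine MT.lin9 K n m (p ^ k i) ?_ (μ i) (ρ (τ i)) (ρ (x i)) (P i) B C (A (τ i)) (A (x i)) hX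
      ?_ (hτ2 i).1 ?_ hC (hA _) (hA _)
    · rw [Nat.cast_pow]
      exact pow_ne_zero _ hpK
    · have e1 := hτ1 i (k i) (x i) (hTr1 i).2.1 (hTr1 i).2.2
      have e2 : ρ (x i * τ i * (x i)⁻¹) = ρ (τ i) ^ (p ^ k i) := by
        rw [← map_pow, hρ, balRep_apply, balRep_apply, e1, map_pow]
      rw [← e2, ← map_mul, ← map_mul, inv_mul_cancel_right]
    · intro a ha
      rw [hXinv]
      exact ⟨(hP i a ha).1, (hP i a ha).2.2.2⟩
  choose u R hu1 hu2 hu3 hu4 hu5 using h3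
  -- the relation
  have hrel : ∏ i, ∏ a ∈ (μ i).toFinset, ∏ j ∈ Finset.Icc 1 a,
      ((-1) ^ (u i j a) * (R i j a).coeff 0) =
      (p : K) ^ (∑ i, k i * ∑ a ∈ (μ i).toFinset, ∑ j ∈ Finset.Icc 1 a, (a - j) * u i j a + s) := by
    have e1 : (∏ i, ∏ a ∈ (μ i).toFinset, ∏ j ∈ Finset.Icc 1 a,
        ((-1) ^ (u i j a) * (R i j a).coeff 0)) * ∏ i, (A (x i)).det =
        (p : K) ^ (∑ i, k i * ∑ a ∈ (μ i).toFinset, ∑ j ∈ Finset.Icc 1 a, (a - j) * u i j a) := by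
      rw [← Finset.prod_mul_distrib, ← Finset.prod_pow_eq_pow_sum]
      apply Finset.prod_congr rfl
      intro i _
      rw [hu5 i, Nat.cast_pow, ← pow_mul]
    rw [pow_add, ← e1, mul_assoc, hdet, mul_one]
  have hT : ∀ i, ∀ a ∈ (μ i).toFinset, a ≤ n := by
    intro i a ha
    have e1 := (hτ2 i).1 0
    rw [pow_zero, Matrix.rank_one, Fintype.card_fin] at e1
    have e2 : ((μ i).map fun i => i - 0).sum = (μ i).sum := by
      congr 1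
      simp
    rw [e1, e2]
    exact Multiset.single_le_sum (fun _ _ => Nat.zero_le _) a (Multiset.mem_toFinset.mp ha)
  have hun : ∀ i, ∀ a ∈ (μ i).toFinset, ∀ j ∈ Finset.Icc 1 a, u i j a ≤ n := by
    intro i a ha j hj
    refine le_trans ?_ hmn
    rw [← hu3 i]
    refine le_trans ?_ (Finset.single_le_sum (f := fun a => ∑ j ∈ Finset.Icc 1 a, u i j a)
      (fun _ _ => Nat.zero_le _) ha)
    exact Finset.single_le_sum (f := fun j => u i j a) (fun _ _ => Nat.zero_le _) hj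
  have hsB : s ≤ Module.finrank ℚ F * n * w := by
    have e1 : Module.finrank ℚ F * m * w ≤ Module.finrank ℚ F * n * w := by gcongr
    omega
  have hE := hD2 K hDK s hsB (fun i => (μ i).toFinset) u R P hT hun
    (fun i a ha => ⟨(hP i a ha).1, (hP i a ha).2.1, (hP i a ha).2.2.1⟩) hu4 hrel
  have hend := key_arith r m w s k (fun i => (hTr1 i).2.1) (fun i => (μ i).toFinset) u hu1 hu3
    (by rw [hTr2]; exact hsm) hE i₀
  obtain ⟨T, hT1, hT2⟩ := sub_multiset (μ i₀) (fun a => u i₀ 1 a) (hu2 i₀)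
  rw [hμ2 i₀ rfl] at hT1 hT2 hend
  exact ⟨T, hT1, hT2.trans hend⟩

end MU
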