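import Pool.Agent.Helper3.MV.Defs
import Pool.Agent.Helper28.MU.MIX
import Pool.Agent.Helper21.MT7.LinD
import Pool.Agent.Helper21.MT8.LinG

/-! POL: purity of the monodromy filtration for polarised representations with distinct blocks. -/

set_option autoImplicit false
set_option maxHeartbeats 1600000

open Matrix Polynomial NumberField

namespace MU

/-- `Jor` with purity -/
def JorP {F K : Type} [Field F] [Field K] {n : ℕ} (w p c : ℕ)
    (𝔓 : Ideal (integralClosure ℤ (AlgebraicClosure F))) (μ : Multiset ℕ) (τ : Gal F)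
    (r : Gal F →* Matrix (Fin n) (Fin n) K) : Prop :=
  (∀ k : ℕ, ((r τ - 1) ^ k).rank = (μ.map fun i => i - k).sum) ∧
  ∀ (k : ℕ) (g : Gal F), 1 ≤ k → CongPow 𝔓 (p ^ k) g → ∀ i : ℕ, 1 ≤ i →
    ∃ P : Polynomial ℤ, P.Monic ∧ P.natDegree ≤ c ∧
      (∀ z : ℂ, (P.map (Int.castRingHom ℂ)).IsRoot z →
        ‖z‖ ^ 2 = (p : ℝ) ^ (k * (w + i - 1))) ∧
      ∀ v : Fin n → K, ((r τ - 1) ^ i).mulVec v = 0 → ∃ a b : Fin n → K,
        ((r τ - 1) ^ (i - 1)).mulVec a = 0 ∧ ((r τ - 1) ^ (i + 1)).mulVec b = 0 ∧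
        (Polynomial.aeval (r g⁻¹) P).mulVec v = a + (r τ - 1).mulVec b

/-- linear algebra: the polynomial `X ^ 2 - Q ^ (w + i - 1)` -/
theorem pol_core {K V : Type} [Field K] [AddCommGroup V] [Module K V] [FiniteDimensional K V]
    (t X Y : Module.End K V) (hYX : Y * X = 1) (hXY : X * Y = 1) (μ : Multiset ℕ) (hμ : μ.Nodup)
    (hr : ∀ k : ℕ, Module.finrank K (LinearMap.range ((t - 1) ^ k)) = (μ.map fun i => i - k).sum)
    (q w : ℕ) (hq : (q : K) ≠ 0) (hXt : X * t = t ^ q * X)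
    (b : V →ₗ[K] V →ₗ[K] K) (hb : ∀ v, (∀ u, b u v = 0) → v = 0)
    (ht : ∀ u v, b (t u) (t v) = b u v) (hX : ∀ u v, (q : K) ^ w * b (X u) (X v) = b u v)
    (i : ℕ) (hi : 1 ≤ i) (v : V) (hv : v ∈ MT.kr (t - 1) i) :
    Y (Y v) - ((q : K) ^ (w + i - 1)) • v ∈ MT.rr (t - 1) i := by
  classical
  have hinj : Function.Injective X := by
    intro u v huv
    have := congrArg (fun z => Y z) huv
    rw [← Module.End.mul_apply, ← Module.End.mul_apply, hYX] at this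
    exact this
  have hML : IsNilpotent (t - 1) := by
    refine ⟨μ.sum, ?_⟩
    have h1 : (μ.map fun i => i - μ.sum).sum = 0 := by
      apply Multiset.sum_eq_zero
      intro x hx
      rw [Multiset.mem_map] at hx
      obtain ⟨i, hi, rfl⟩ := hx
      have := Multiset.single_le_sum (fun _ _ => Nat.zero_le _) i hi
      omega
    have h2 := hr μ.sum
    rw [h1, Submodule.finrank_eq_zero, LinearMap.range_eq_bot] at h2
    exact h2
  obtain ⟨G, G', hF⟩ := MT.geo t X q hXt hq hinj hML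
  have hr' : ∀ k : ℕ, Module.finrank K (LinearMap.range ((t - 1) ^ k)) =
      ∑ i ∈ μ.toFinset, (i - k) := by
    intro k
    rw [hr k, Finset.sum_multiset_map_count]
    apply Finset.sum_congr rfl
    intro i hi
    rw [Multiset.count_eq_one_of_mem hμ (Multiset.mem_toFinset.mp hi), one_smul]
  by_cases hiΛ : i ∈ μ.toFinset
  · have hX' : ∀ u v, b (X u) (X v) = ((q : K) ^ w)⁻¹ * b u v := by
      intro u v
      rw [← hX u v, ← mul_assoc, inv_mul_cancel₀ (pow_ne_zero _ hq), one_mul]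
    obtain ⟨α, hα, hα2⟩ := MT.frm8 b t ht hb μ.toFinset hr' X G G' (q : K) _ hF hX' i hi hiΛ
    have hα3 : α ^ 2 * (q : K) ^ (w + i - 1) = 1 := by
      rw [show w + i - 1 = w + (i - 1) by omega, pow_add]
      calc α ^ 2 * ((q : K) ^ w * (q : K) ^ (i - 1)) =
          (α ^ 2 * (q : K) ^ (i - 1)) * (q : K) ^ w := by ring
        _ = 1 := by rw [hα, inv_mul_cancel₀ (pow_ne_zero _ hq)]
    -- stability under `Y`
    have hYkr : ∀ v ∈ MT.kr (t - 1) i, Y v ∈ MT.kr (t - 1) i := fun v hv =>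
      MT.inv_stable X Y hYX _ (fun v hv => hF.kr i v hv) hv
    have hYrr : ∀ v ∈ MT.rr (t - 1) i, Y v ∈ MT.rr (t - 1) i := fun v hv =>
      MT.inv_stable X Y hYX _ (fun v hv => hF.rr i v hv) hv
    have hXX : ∀ u ∈ MT.kr (t - 1) i, u - ((q : K) ^ (w + i - 1)) • X (X u) ∈ MT.rr (t - 1) i := by
      intro u hu
      have h1 := hα2 u hu
      have h2 := hF.rr i _ h1
      have e : u - ((q : K) ^ (w + i - 1)) • X (X u) =
          -((q : K) ^ (w + i - 1) • (X (X u - α • u)) +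
            (((q : K) ^ (w + i - 1)) * α) • (X u - α • u)) := by
        rw [map_sub, map_smul, smul_sub, smul_sub, smul_smul, smul_smul]
        have e2 : (q : K) ^ (w + i - 1) * α * α = 1 := by rw [← hα3]; ring
        rw [e2, one_smul]
        abel
      rw [e]
      exact Submodule.neg_mem _ (Submodule.add_mem _ (Submodule.smul_mem _ _ h2)
        (Submodule.smul_mem _ _ h1))
    have h3 := hXX (Y (Y v)) (hYkr _ (hYkr _ hv))
    have hXYv : ∀ u, X (Y u) = u := fun u => by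
      rw [← Module.End.mul_apply, hXY]; rfl
    rw [hXYv, hXYv] at h3
    exact h3
  · have h1 := (MT.exists_gen (t - 1) μ.toFinset hr' i hi).1 hiΛ
    rw [← h1]
    have hYkr : ∀ v ∈ MT.kr (t - 1) i, Y v ∈ MT.kr (t - 1) i := fun v hv =>
      MT.inv_stable X Y hYX _ (fun v hv => hF.kr i v hv) hv
    exact Submodule.sub_mem _ (hYkr _ (hYkr _ hv)) (Submodule.smul_mem _ _ hv)

/-- polarised representations with distinct blocks satisfy purity -/
theorem jor_pol {F K : Type} [Field F] [Field K] {n : ℕ} (w p c : ℕ) (hp : 0 < p)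
    (hpK : (p : K) ≠ 0) (𝔓 : Ideal (Zb F)) (μ : Multiset ℕ) (τ : Gal F)
    (r : Gal F →* Matrix (Fin n) (Fin n) K) (hτ : CongPow 𝔓 1 τ)
    (hconj : ∀ (k : ℕ) (g : Gal F), 1 ≤ k → CongPow 𝔓 (p ^ k) g →
      r (g * τ * g⁻¹) = (r τ) ^ (p ^ k))
    (hJ : Jor w p c 𝔓 μ τ r) : JorP w p (max c 2) 𝔓 μ τ r := by
  classical
  obtain ⟨h1, h2 | ⟨hnd, ψ, hψ, hpol⟩⟩ := hJ
  · refine ⟨h1, fun k g hk hg i hi => ?_⟩
    obtain ⟨P, a1, a2, a3, a4⟩ := h2 k g hk hg i hi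
    exact ⟨P, a1, a2.trans (le_max_left _ _), a3, a4⟩
  refine ⟨h1, fun k g hk hg i hi => ?_⟩
  refine ⟨X ^ 2 - C ((p : ℤ) ^ (k * (w + i - 1))), monic_X_pow_sub_C _ two_ne_zero, ?_, ?_, ?_⟩
  · rw [natDegree_X_pow_sub_C]
    exact le_max_right _ _
  · intro z hz
    rw [Polynomial.map_sub, Polynomial.map_pow, Polynomial.map_X, Polynomial.map_C, IsRoot,
      eval_sub, eval_pow, eval_X, eval_C, sub_eq_zero] at hz
    rw [← norm_pow, hz]
    simp
  intro v hv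
  have hinv : r g * r g⁻¹ = 1 := by rw [← map_mul, mul_inv_cancel, map_one]
  have hinv' : r g⁻¹ * r g = 1 := by rw [← map_mul, inv_mul_cancel, map_one]
  let tl : Module.End K (Fin n → K) := Matrix.toLinAlgEquiv' (r τ)
  let Xl : Module.End K (Fin n → K) := Matrix.toLinAlgEquiv' (r g)
  let Yl : Module.End K (Fin n → K) := Matrix.toLinAlgEquiv' (r g⁻¹)
  have hYX : Yl * Xl = 1 := by
    have h3 : Yl * Xl = Matrix.toLinAlgEquiv' (r g⁻¹ * r g) := (map_mul _ _ _).symm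
    rw [h3, hinv', map_one]
  have hXY : Xl * Yl = 1 := by
    have h3 : Xl * Yl = Matrix.toLinAlgEquiv' (r g * r g⁻¹) := (map_mul _ _ _).symm
    rw [h3, hinv, map_one]
  have hXt : Xl * tl = tl ^ (p ^ k) * Xl := by
    have h3 : Xl * tl = Matrix.toLinAlgEquiv' (r g * r τ) := (map_mul _ _ _).symm
    have h4 : tl ^ (p ^ k) * Xl = Matrix.toLinAlgEquiv' ((r τ) ^ (p ^ k) * r g) := by
      rw [map_mul, map_pow]
    rw [h3, h4, ← hconj k g hk hg, ← map_mul, ← map_mul, inv_mul_cancel_right]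
  have hpow : ∀ k : ℕ, (tl - 1) ^ k = Matrix.toLinAlgEquiv' ((r τ - 1) ^ k) := by
    intro k
    rw [map_pow, map_sub, map_one]
  have hr' : ∀ k : ℕ, Module.finrank K (LinearMap.range ((tl - 1) ^ k)) =
      (μ.map fun i => i - k).sum := by
    intro k
    rw [← h1 k, hpow k]
    rfl
  have hkr : ∀ (k : ℕ) (v : Fin n → K), v ∈ MT.kr (tl - 1) k ↔
      ((r τ - 1) ^ k).mulVec v = 0 := by
    intro k v
    rw [MT.mem_kr, hpow k]
    rfl
  let b : (Fin n → K) →ₗ[K] (Fin n → K) →ₗ[K] K := Matrix.toLinearMap₂' K ψ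
  have hbv : ∀ u v, b u v = u ⬝ᵥ (ψ.mulVec v) := fun u v => Matrix.toLinearMap₂'_apply' ψ u v
  have hb : ∀ v, (∀ u, b u v = 0) → v = 0 := by
    intro v hv
    have h3 : ψ.mulVec v = 0 := by
      ext j
      have h4 := hv (Pi.single j 1)
      rw [hbv, single_one_dotProduct] at h4
      exact h4
    exact Matrix.eq_zero_of_mulVec_eq_zero hψ h3
  have hform : ∀ (g : Gal F) (j : ℕ), CongPow 𝔓 (p ^ j) g → ∀ u v,
      (p : K) ^ (j * w) * b ((r g).mulVec u) ((r g).mulVec v) = b u v := by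
    intro g j hg u v
    have h3 := hpol j g hg
    rw [hbv, hbv]
    conv_rhs => rw [← h3]
    rw [Matrix.smul_mulVec, dotProduct_smul, smul_eq_mul]
    congr 1
    rw [Matrix.mulVec_mulVec, Matrix.dotProduct_mulVec, Matrix.dotProduct_mulVec,
      ← Matrix.vecMul_transpose, Matrix.vecMul_vecMul, Matrix.mul_assoc]
  have ht : ∀ u v, b (tl u) (tl v) = b u v := by
    intro u v
    have h3 := hform τ 0 (by rw [pow_zero]; exact hτ) u v
    rw [zero_mul, pow_zero, one_mul] at h3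
    exact h3
  have hX : ∀ u v, ((p ^ k : ℕ) : K) ^ w * b (Xl u) (Xl v) = b u v := by
    intro u v
    rw [Nat.cast_pow, ← pow_mul]
    exact hform g k hg u v
  have hq : ((p ^ k : ℕ) : K) ≠ 0 := by
    rw [Nat.cast_pow]
    exact pow_ne_zero _ hpK
  have hmain := pol_core tl Xl Yl hYX hXY μ hnd hr' (p ^ k) w hq hXt b hb ht hX i hi v
    ((hkr i v).mpr hv)
  unfold MT.rr at hmain
  obtain ⟨a, ha, _, ⟨x, hx, rfl⟩, hax⟩ := Submodule.mem_sup.mp hmain
  refine ⟨a, x, (hkr _ _).mp ha, (hkr _ _).mp hx, ?_⟩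
  have e1 : (Polynomial.aeval (r g⁻¹) (X ^ 2 - C ((p : ℤ) ^ (k * (w + i - 1))) : ℤ[X])).mulVec v =
      Yl (Yl v) - (((p ^ k : ℕ) : K) ^ (w + i - 1)) • v := by
    rw [map_sub, map_pow, aeval_X, aeval_C, Matrix.sub_mulVec, pow_two, ← Matrix.mulVec_mulVec]
    congr 1
    have e2 : (algebraMap ℤ (Matrix (Fin n) (Fin n) K)) ((p : ℤ) ^ (k * (w + i - 1))) =
        (((p ^ k : ℕ) : K) ^ (w + i - 1)) • (1 : Matrix (Fin n) (Fin n) K) := by
      rw [Nat.cast_pow, ← pow_mul, ← Algebra.algebraMap_eq_smul_one]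
      simp
    rw [e2, Matrix.smul_mulVec, Matrix.one_mulVec]
  rw [e1, ← hax]
  congr 1
  have h5 := hpow 1
  rw [pow_one, pow_one] at h5
  rw [h5]
  rfl

section

variable {F : Type} [Field F] [NumberField F] {S : Finset ℕ} {n w : ℕ} {h : Fin n → ℕ}

/-- `TypAt` with purity -/
def Mot.TypP (M : Mot F S n w h) (l : ℕ) [Fact l.Prime] (p c : ℕ)
    (𝔓 : Ideal (integralClosure ℤ (AlgebraicClosure F))) (μ : Multiset ℕ) : Prop :=
  ∃ τ : Gal F, CongPow 𝔓 1 τ ∧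
    (∀ (k : ℕ) (g : Gal F), 1 ≤ k → CongPow 𝔓 (p ^ k) g →
      M.ρ l (g * τ * g⁻¹) = (M.ρ l τ) ^ (p ^ k)) ∧
    JorP w p c 𝔓 μ τ (rat (M.ρ l)) ∧ (c < l → JorP w p c 𝔓 μ τ (res (M.ρ l)))

theorem typ_pol (M : Mot F S n w h) (l : ℕ) [hl : Fact l.Prime] (p c : ℕ) (hp : p.Prime)
    (hpl : p ≠ l) (𝔓 : Ideal (Zb F)) (μ : Multiset ℕ) (hM : M.TypAt l p c 𝔓 μ) :
    M.TypP l p (max c 2) 𝔓 μ := by
  obtain ⟨τ, h1, h2, h3, h4⟩ := hM
  have hconj : ∀ (K : Type) [Field K] (f : ℤ_[l] →+* K) (k : ℕ) (g : Gal F), 1 ≤ k →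
      CongPow 𝔓 (p ^ k) g → balRep f (M.ρ l) (g * τ * g⁻¹) = (balRep f (M.ρ l) τ) ^ (p ^ k) := by
    intro K _ f k g hk hg
    rw [← map_pow, balRep_apply, balRep_apply, h2 k g hk hg, map_pow]
  refine ⟨τ, h1, h2, ?_, fun hc => ?_⟩
  · exact jor_pol w p c hp.pos (by exact_mod_cast hp.ne_zero) 𝔓 μ τ _ h1
      (hconj ℚ_[l] (algebraMap ℤ_[l] ℚ_[l])) h3
  · refine jor_pol w p c hp.pos ?_ 𝔓 μ τ _ h1
      (hconj (ZMod l) (PadicInt.toZMod (p := l))) (h4 (by omega))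
    rw [Ne, ZMod.natCast_eq_zero_iff]
    intro h0
    exact hpl ((Nat.prime_dvd_prime_iff_eq hl.out hp).mp h0).symm

end

end MU
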