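import Pool.Agent.Helper26.MU.PRO

/-! PRO9: products of constant coefficients of factors, variable degrees, any field. -/

set_option autoImplicit false
set_option maxHeartbeats 800000

open Polynomial

namespace MU

theorem pro9 (ι : Type) [Fintype ι] (m : ι → ℕ) (N₁ N₂ : ℕ) (R : ι → ℝ) (P : ι → ℤ[X])
    (hmon : ∀ i, (P i).Monic)
    (hroot : ∀ i (z : ℂ), ((P i).map (Int.castRingHom ℂ)).IsRoot z → ‖z‖ ^ 2 = R i)
    (hne : (N₁ : ℝ) ^ 2 * ∏ i, R i ^ (m i) ≠ (N₂ : ℝ) ^ 2) :
    ∃ D : ℤ, D ≠ 0 ∧ ∀ (K : Type) [Field K] (Q : ι → Polynomial K),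
      (∀ i, (Q i).Monic ∧ (Q i).natDegree = m i ∧ Q i ∣ (P i).map (Int.castRingHom K)) →
      (N₁ : K) * ∏ i, ((-1) ^ (m i) * (Q i).coeff 0) = N₂ → (D : K) = 0 := by
  classical
  set Z := integralClosure ℤ ℂ with hZ
  choose a ha using fun i => pro_split (P i) (hmon i)
  -- the roots
  have hR : ∀ i (j : Fin (P i).natDegree), ‖((a i j : Z) : ℂ)‖ ^ 2 = R i := by
    intro i j
    apply hroot i
    have h1 : (P i).map (Int.castRingHom ℂ) =
        ((P i).map (algebraMap ℤ Z)).map (algebraMap Z ℂ) := by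
      rw [Polynomial.map_map, ← IsScalarTower.algebraMap_eq]; rfl
    rw [h1, ha i, IsRoot, Polynomial.map_prod, eval_prod]
    apply Finset.prod_eq_zero (Finset.mem_univ j)
    simp
  let T : Finset (∀ i : ι, Finset (Fin (P i).natDegree)) :=
    Finset.univ.filter fun J => ∀ i, (J i).card = m i
  let del : (∀ i : ι, Finset (Fin (P i).natDegree)) → Z := fun J =>
    (N₁ : Z) * ∏ i, ∏ j ∈ J i, a i j - (N₂ : Z)
  have hdel : ∀ J ∈ T, del J ≠ 0 := by
    intro J hJ h0
    have hJ2 : ∀ i, (J i).card = m i := (Finset.mem_filter.mp hJ).2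
    apply hne
    have h1 : ((N₁ : Z) * ∏ i, ∏ j ∈ J i, a i j : Z) = (N₂ : Z) := sub_eq_zero.mp h0
    have h2 : (N₁ : ℂ) * ∏ i, ∏ j ∈ J i, ((a i j : Z) : ℂ) = (N₂ : ℂ) := by
      have := congrArg (algebraMap Z ℂ) h1
      rw [map_mul, map_prod, map_natCast, map_natCast] at this
      simp only [map_prod] at this
      exact this
    have h3 := congrArg (fun z : ℂ => ‖z‖ ^ 2) h2
    simp only [norm_mul, norm_prod, mul_pow, ← Finset.prod_pow, hR] at h3
    rw [Complex.norm_natCast, Complex.norm_natCast] at h3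
    rw [← h3]
    congr 1
    apply Finset.prod_congr rfl
    intro i _
    rw [Finset.prod_const, hJ2 i]
  have hD0 : (∏ J ∈ T, del J) ≠ 0 := Finset.prod_ne_zero_iff.mpr hdel
  have hcomap := Ideal.comap_ne_bot_of_integral_mem (R := ℤ) (I := Ideal.span {∏ J ∈ T, del J})
    hD0 (Ideal.mem_span_singleton_self _) (Algebra.IsIntegral.isIntegral (R := ℤ) _)
  obtain ⟨D, hD, hDne⟩ := Submodule.exists_mem_ne_zero_of_ne_bot hcomap
  refine ⟨D, hDne, ?_⟩
  intro K _ Q hQ hprod
  let L := AlgebraicClosure K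
  obtain ⟨ψ⟩ := pro_hom L Z
  have hmap : ∀ i, ((Q i).map (algebraMap K L)) ∣ ∏ j, (X - C (ψ (a i j))) := by
    intro i
    have h1 := Polynomial.map_dvd (algebraMap K L) (hQ i).2.2
    have h2 : ((P i).map (Int.castRingHom K)).map (algebraMap K L) =
        ((P i).map (algebraMap ℤ Z)).map ψ := by
      rw [Polynomial.map_map, Polynomial.map_map]
      congr 1
      exact RingHom.ext_int _ _
    rw [h2, ha i, Polynomial.map_prod] at h1
    simpa using h1
  have hJ : ∀ i, ∃ J : Finset (Fin (P i).natDegree), J.card = m i ∧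
      (-1) ^ (m i) * ((Q i).map (algebraMap K L)).coeff 0 = ∏ j ∈ J, ψ (a i j) := by
    intro i
    exact pro_div L _ (m i) (fun j => ψ (a i j)) _ ((hQ i).1.map _)
      (by rw [(hQ i).1.natDegree_map, (hQ i).2.1]) (hmap i)
  choose J hJc hJp using hJ
  have hJT : J ∈ T := Finset.mem_filter.mpr ⟨Finset.mem_univ _, hJc⟩
  have hz : ψ (del J) = 0 := by
    have h1 := congrArg (algebraMap K L) hprod
    rw [map_mul, map_prod, map_natCast, map_natCast] at h1
    have h2 : ∀ i, algebraMap K L ((-1) ^ (m i) * (Q i).coeff 0) = ∏ j ∈ J i, ψ (a i j) := by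
      intro i
      rw [← hJp i, map_mul, map_pow, map_neg, map_one, coeff_map]
    simp only [h2] at h1
    show ψ ((N₁ : Z) * ∏ i, ∏ j ∈ J i, a i j - (N₂ : Z)) = 0
    rw [map_sub, map_mul, map_prod, map_natCast, map_natCast]
    simp only [map_prod]
    rw [h1, sub_self]
  have hDL : ((D : ℤ) : L) = 0 := by
    obtain ⟨e, he⟩ := Ideal.mem_span_singleton.mp (Ideal.mem_comap.mp hD)
    have h1 : ψ (algebraMap ℤ Z D) = 0 := by
      rw [he, map_mul, map_prod, Finset.prod_eq_zero hJT hz, zero_mul]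
    have h2 : ψ (algebraMap ℤ Z D) = (D : L) := by simp
    rw [← h2, h1]
  have h3 : algebraMap K L (D : K) = 0 := by rw [map_intCast]; exact hDL
  exact (map_eq_zero (algebraMap K L)).mp h3

/-- monic integral polynomials of bounded degree with bounded roots -/
theorem poly_finite (c : ℕ) (B : ℝ) :
    {P : ℤ[X] | P.Monic ∧ P.natDegree ≤ c ∧
      ∀ z : ℂ, (P.map (Int.castRingHom ℂ)).IsRoot z → ‖z‖ ≤ B}.Finite := by
  set C₀ : ℝ := max B 1 ^ c * c.choose (c / 2) with hC₀
  obtain ⟨A, hA⟩ := exists_nat_ge C₀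
  have hfin : (Set.univ.pi fun _ : Fin (c + 1) => Set.Icc (-(A : ℤ)) A).Finite :=
    Set.Finite.pi fun _ => Set.finite_Icc _ _
  refine Set.Finite.subset (hfin.image fun a : Fin (c + 1) → ℤ =>
    ∑ i : Fin (c + 1), C (a i) * X ^ (i : ℕ)) ?_
  rintro P ⟨h1, h2, h3⟩
  refine ⟨fun i => P.coeff i, ?_, ?_⟩
  · intro i _
    have h4 : (P.map (Int.castRingHom ℂ)).Splits := IsAlgClosed.splits _
    have h5 := Polynomial.coeff_bdd_of_roots_le (B := B) (d := c) (RingHom.id ℂ)
      (p := P.map (Int.castRingHom ℂ)) (h1.map _) (by rw [Polynomial.map_id]; exact h4)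
      (by rw [h1.natDegree_map]; exact h2) (by
        intro z hz
        rw [Polynomial.map_id] at hz
        exact h3 z (isRoot_of_mem_roots hz)) i
    rw [Polynomial.map_id, coeff_map] at h5
    have h6 : |((P.coeff (i : ℕ) : ℤ) : ℝ)| ≤ A := by
      have h7 : ‖(Int.castRingHom ℂ) (P.coeff (i : ℕ))‖ = |((P.coeff (i : ℕ) : ℤ) : ℝ)| := by
        simp
      rw [← h7]
      exact h5.trans hA
    have h8 : |P.coeff (i : ℕ)| ≤ (A : ℤ) := by exact_mod_cast h6
    exact abs_le.mp h8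
  · show ∑ i : Fin (c + 1), C (P.coeff i) * X ^ (i : ℕ) = P
    rw [Fin.sum_univ_eq_sum_range (fun i => C (P.coeff i) * X ^ i) (c + 1)]
    exact (Polynomial.as_sum_range_C_mul_X_pow' (p := P) (by omega)).symm

end MU
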