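import Pool.Agent.Helper3.MV.POL

/-! Conjugation of Jordan types. -/

set_option autoImplicit false
set_option maxHeartbeats 800000

open Matrix Polynomial NumberField

namespace MU

lemma typ_pow {G K : Type} [Group G] [Field K] {n : ℕ} (r : G →* Matrix (Fin n) (Fin n) K)
    (g τ : G) (j : ℕ) :
    (r (g * τ * g⁻¹) - 1) ^ j = r g * (r τ - 1) ^ j * r g⁻¹ := by
  have h := mix_pow r g⁻¹ (g * τ * g⁻¹) j
  have e : g⁻¹ * (g * τ * g⁻¹) * g⁻¹⁻¹ = τ := by group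
  rw [e, inv_inv] at h
  exact h

lemma typ_inv {G K : Type} [Group G] [Field K] {n : ℕ} (r : G →* Matrix (Fin n) (Fin n) K)
    (g : G) : r g * r g⁻¹ = 1 ∧ r g⁻¹ * r g = 1 := by
  refine ⟨?_, ?_⟩
  · rw [← map_mul, mul_inv_cancel, map_one]
  · rw [← map_mul, inv_mul_cancel, map_one]

lemma typ_rank {G K : Type} [Group G] [Field K] {n : ℕ} (r : G →* Matrix (Fin n) (Fin n) K)
    (g : G) (A : Matrix (Fin n) (Fin n) K) : (r g * A * r g⁻¹).rank = A.rank := by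
  have h1 : IsUnit (r g).det := by
    have h2 := congrArg Matrix.det (typ_inv r g).1
    rw [Matrix.det_mul, Matrix.det_one] at h2
    exact IsUnit.of_mul_eq_one _ h2
  have h3 : IsUnit (r g⁻¹).det := by
    have h2 := congrArg Matrix.det (typ_inv r g).2
    rw [Matrix.det_mul, Matrix.det_one] at h2
    exact IsUnit.of_mul_eq_one _ h2
  rw [Matrix.rank_mul_eq_left_of_isUnit_det _ _ h3, Matrix.rank_mul_eq_right_of_isUnit_det _ _ h1]

lemma typ_aeval {G K : Type} [Group G] [Field K] {n : ℕ} (r : G →* Matrix (Fin n) (Fin n) K)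
    (g h : G) (P : ℤ[X]) :
    Polynomial.aeval (r (g * h * g⁻¹)) P = r g * Polynomial.aeval (r h) P * r g⁻¹ := by
  induction P using Polynomial.induction_on' with
  | add P Q hP hQ => rw [map_add, hP, hQ, map_add, Matrix.mul_add, Matrix.add_mul]
  | monomial j a =>
    rw [Polynomial.aeval_monomial, Polynomial.aeval_monomial]
    have h1 : r (g * h * g⁻¹) ^ j = r g * r h ^ j * r g⁻¹ := by
      rw [← map_pow, conj_pow, map_mul, map_mul, map_pow]
    rw [h1]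
    have h2 : (algebraMap ℤ (Matrix (Fin n) (Fin n) K)) a * (r g * r h ^ j * r g⁻¹) =
        a • (r g * r h ^ j * r g⁻¹) := (Algebra.smul_def _ _).symm
    have h3 : (algebraMap ℤ (Matrix (Fin n) (Fin n) K)) a * (r h ^ j) = a • (r h ^ j) :=
      (Algebra.smul_def _ _).symm
    rw [h2, h3, mul_smul_comm, smul_mul_assoc]

section

variable {F : Type} [Field F]

lemma mix_cong_symm {𝔓 𝔔 : Ideal (Zb F)} (g : Gal F)
    (hg : ∀ x y : Zb F, (y : AlgebraicClosure F) = g (x : AlgebraicClosure F) →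
      (x ∈ 𝔓 ↔ y ∈ 𝔔)) :
    ∀ x y : Zb F, (y : AlgebraicClosure F) = g⁻¹ (x : AlgebraicClosure F) → (x ∈ 𝔔 ↔ y ∈ 𝔓) := by
  intro x y hxy
  refine (hg y x ?_).symm
  rw [hxy, mix_inv]

lemma jor_conj {K : Type} [Field K] {n : ℕ} {𝔓 𝔔 : Ideal (Zb F)} (g : Gal F)
    (hg : ∀ x y : Zb F, (y : AlgebraicClosure F) = g (x : AlgebraicClosure F) →
      (x ∈ 𝔓 ↔ y ∈ 𝔔)) (w p c : ℕ) (μ : Multiset ℕ) (τ : Gal F)
    (r : Gal F →* Matrix (Fin n) (Fin n) K) (hJ : JorP w p c 𝔓 μ τ r) :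
    JorP w p c 𝔔 μ (g * τ * g⁻¹) r := by
  obtain ⟨h1, h2⟩ := hJ
  refine ⟨fun k => ?_, fun k g' hk hg' i hi => ?_⟩
  · rw [typ_pow, typ_rank]
    exact h1 k
  · have h5 := mix_cong g⁻¹ (mix_cong_symm g hg) (p ^ k) g' hg'
    rw [inv_inv] at h5
    obtain ⟨P, hP1, hP2, hP3, hP4⟩ := h2 k _ hk h5 i hi
    refine ⟨P, hP1, hP2, hP3, fun v hv => ?_⟩
    have hz : ∀ (A : Matrix (Fin n) (Fin n) K) (v : Fin n → K),
        (r g * A * r g⁻¹).mulVec v = 0 → A.mulVec ((r g⁻¹).mulVec v) = 0 := by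
      intro A v hv
      have h6 : (r g⁻¹).mulVec ((r g * A * r g⁻¹).mulVec v) = 0 := by rw [hv, Matrix.mulVec_zero]
      rw [Matrix.mulVec_mulVec] at h6
      rw [Matrix.mulVec_mulVec, ← h6]
      congr 1
      rw [Matrix.mul_assoc (r g), ← Matrix.mul_assoc (r g⁻¹), (typ_inv r g).2, Matrix.one_mul]
    have hz' : ∀ (A : Matrix (Fin n) (Fin n) K) (v : Fin n → K),
        A.mulVec v = 0 → (r g * A * r g⁻¹).mulVec ((r g).mulVec v) = 0 := by
      intro A v hv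
      rw [Matrix.mulVec_mulVec, Matrix.mul_assoc, (typ_inv r g).2, Matrix.mul_one,
        ← Matrix.mulVec_mulVec, hv, Matrix.mulVec_zero]
    rw [typ_pow] at hv
    obtain ⟨a, b, ha, hb, hab⟩ := hP4 _ (hz _ v hv)
    refine ⟨(r g).mulVec a, (r g).mulVec b, ?_, ?_, ?_⟩
    · rw [typ_pow]; exact hz' _ a ha
    · rw [typ_pow]; exact hz' _ b hb
    · have e1 : (g⁻¹ * g' * g)⁻¹ = g⁻¹ * g'⁻¹ * (g⁻¹)⁻¹ := by group
      rw [e1, typ_aeval, inv_inv] at hab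
      have h7 := congrArg (fun z => (r g).mulVec z) hab
      simp only [Matrix.mulVec_add, Matrix.mulVec_mulVec] at h7
      have e2 : r g * (r g⁻¹ * (Polynomial.aeval (r g'⁻¹)) P * r g * r g⁻¹) =
          (Polynomial.aeval (r g'⁻¹)) P := by
        rw [Matrix.mul_assoc _ (r g), (typ_inv r g).1, Matrix.mul_one, ← Matrix.mul_assoc,
          (typ_inv r g).1, Matrix.one_mul]
      rw [e2] at h7
      rw [h7]
      congr 1
      have e3 := typ_pow r g τ 1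
      rw [pow_one, pow_one] at e3
      rw [e3, Matrix.mulVec_mulVec, Matrix.mul_assoc _ (r g⁻¹), (typ_inv r g).2, Matrix.mul_one]

variable [NumberField F] {S : Finset ℕ} {n w : ℕ} {h : Fin n → ℕ}

lemma typ_conj (M : Mot F S n w h) (l : ℕ) [Fact l.Prime] (p c : ℕ) {𝔓 𝔔 : Ideal (Zb F)}
    (g : Gal F) (hg : ∀ x y : Zb F, (y : AlgebraicClosure F) = g (x : AlgebraicClosure F) →
      (x ∈ 𝔓 ↔ y ∈ 𝔔)) (μ : Multiset ℕ) (hM : M.TypP l p c 𝔓 μ) : M.TypP l p c 𝔔 μ := by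
  obtain ⟨τ, h1, h2, h3, h4⟩ := hM
  refine ⟨g * τ * g⁻¹, mix_cong g hg 1 τ h1, ?_, jor_conj g hg w p c μ τ _ h3,
    fun hc => jor_conj g hg w p c μ τ _ (h4 hc)⟩
  intro k g' hk hg'
  have h5 := mix_cong g⁻¹ (mix_cong_symm g hg) (p ^ k) g' hg'
  rw [inv_inv] at h5
  have h6 := h2 k _ hk h5
  have h7 : g' * (g * τ * g⁻¹) * g'⁻¹ =
      g * ((g⁻¹ * g' * g) * τ * (g⁻¹ * g' * g)⁻¹) * g⁻¹ := by group
  rw [h7, map_mul, map_mul, h6, map_mul, map_mul, map_inv, conj_pow]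

end

end MU
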